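import Pool.Agent.Helper48_C4K.Wcn

/-!
# Counting sequences with prescribed nodes
-/

set_option autoImplicit false

namespace Pool.Agent.C4K.H48

open Finset Helper48NP
open scoped Classical

noncomputable section

variable {V : Type}

/-- `x` is a path of `R` whose node `j` satisfies `Q j` -/
def okp (R : V → V → Prop) (n : ℕ) (Q : ℕ → V → Prop) (x : Fin (n + 1) → V) : Prop :=
  (∀ j, j < n → R (nd x j) (nd x (j + 1))) ∧ ∀ j, j ≤ n → Q j (nd x j)

lemma nd_cons_zero {n : ℕ} (a : V) (x : Fin (n + 1) → V) :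
    nd (T := n + 1) (Fin.cons a x : Fin (n + 2) → V) 0 = a := rfl

lemma nd_cons_succ {n : ℕ} (a : V) (x : Fin (n + 1) → V) (j : ℕ) :
    nd (T := n + 1) (Fin.cons a x : Fin (n + 2) → V) (j + 1) = nd x j := by
  have h : (⟨min (j + 1) (n + 1), by omega⟩ : Fin (n + 2)) = Fin.succ ⟨min j n, by omega⟩ := by
    apply Fin.ext
    show min (j + 1) (n + 1) = min j n + 1
    omega
  show (Fin.cons a x : Fin (n + 2) → V) ⟨min (j + 1) (n + 1), by omega⟩ = x ⟨min j n, by omega⟩
  rw [h, Fin.cons_succ]

variable [Fintype V]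

/-- number of the paths which start at `a` -/
def cn (R : V → V → Prop) (n : ℕ) (Q : ℕ → V → Prop) (a : V) : ℝ :=
  ∑ x : Fin (n + 1) → V, if nd x 0 = a ∧ okp R n Q x then 1 else 0

omit [Fintype V] in
lemma okp_cons (R : V → V → Prop) (n : ℕ) (Q : ℕ → V → Prop) (a : V) (x : Fin (n + 1) → V) :
    okp R (n + 1) Q (Fin.cons a x : Fin (n + 2) → V) ↔
      Q 0 a ∧ R a (nd x 0) ∧ okp R n (fun j => Q (j + 1)) x := by
  constructor
  · rintro ⟨h1, h2⟩
    refine ⟨h2 0 (by omega), ?_, ?_, ?_⟩
    · have := h1 0 (by omega)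
      rw [nd_cons_succ] at this
      exact this
    · intro j hj
      have := h1 (j + 1) (by omega)
      rw [nd_cons_succ, nd_cons_succ] at this
      exact this
    · intro j hj
      have := h2 (j + 1) (by omega)
      rw [nd_cons_succ] at this
      exact this
  · rintro ⟨h0, h1, h2, h3⟩
    refine ⟨?_, ?_⟩
    · intro j hj
      cases j with
      | zero => rw [nd_cons_succ]; exact h1
      | succ j => rw [nd_cons_succ, nd_cons_succ]; exact h2 j (by omega)
    · intro j hj
      cases j with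
      | zero => exact h0
      | succ j => rw [nd_cons_succ]; exact h3 j (by omega)

lemma sum_cons {n : ℕ} (F : (Fin (n + 2) → V) → ℝ) :
    ∑ x, F x = ∑ a, ∑ x : Fin (n + 1) → V, F (Fin.cons a x) := by
  rw [← Fintype.sum_prod_type' (f := fun a x => F (Fin.cons a x))]
  symm
  refine Fintype.sum_equiv (Fin.consEquiv fun _ => V) _ _ fun x => ?_
  rfl

lemma cn_zero (R : V → V → Prop) (Q : ℕ → V → Prop) (a : V) :
    cn R 0 Q a = if Q 0 a then 1 else 0 := by
  have h1 : cn R 0 Q a = ∑ x : Fin 1 → V, if x = (fun _ => a) then (if Q 0 a then (1 : ℝ) else 0)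
      else 0 := by
    refine Finset.sum_congr rfl fun x _ => ?_
    have h2 : nd x 0 = a ↔ x = fun _ => a := by
      constructor
      · intro h
        funext i
        rw [Fin.fin_one_eq_zero i]
        exact h
      · intro h
        rw [h]
        rfl
    by_cases h : x = fun _ => a
    · rw [if_pos h]
      have h3 : okp R 0 Q x ↔ Q 0 a := by
        constructor
        · intro h4
          have := h4.2 0 le_rfl
          rw [h2.mpr h] at this
          exact this
        · intro h4
          refine ⟨fun j hj => absurd hj (by omega), fun j hj => ?_⟩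
          obtain rfl : j = 0 := by omega
          rw [h2.mpr h]
          exact h4
      by_cases h5 : Q 0 a
      · rw [if_pos h5, if_pos ⟨h2.mpr h, h3.mpr h5⟩]
      · rw [if_neg h5, if_neg (fun h6 => h5 (h3.mp h6.2))]
    · rw [if_neg h, if_neg (fun h6 => h (h2.mp h6.1))]
  rw [h1, Finset.sum_ite_eq', if_pos (Finset.mem_univ _)]

lemma cn_succ (R : V → V → Prop) (n : ℕ) (Q : ℕ → V → Prop) (a : V) :
    cn R (n + 1) Q a = (if Q 0 a then 1 else 0) *
      ∑ y, (if R a y then 1 else 0) * cn R n (fun j => Q (j + 1)) y := by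
  unfold cn
  rw [sum_cons]
  have h1 : ∀ b : V, (∑ x : Fin (n + 1) → V,
      if nd (T := n + 1) (Fin.cons b x : Fin (n + 2) → V) 0 = a ∧
        okp R (n + 1) Q (Fin.cons b x : Fin (n + 2) → V) then (1 : ℝ) else 0) =
      if b = a then ((if Q 0 a then (1 : ℝ) else 0) * ∑ x : Fin (n + 1) → V,
        (if R a (nd x 0) then 1 else 0) *
          (if okp R n (fun j => Q (j + 1)) x then 1 else 0)) else 0 := by
    intro b
    by_cases hb : b = a
    · subst hb
      rw [if_pos rfl, Finset.mul_sum]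
      refine Finset.sum_congr rfl fun x _ => ?_
      by_cases h0 : Q 0 b
      · by_cases h2 : R b (nd x 0)
        · by_cases h3 : okp R n (fun j => Q (j + 1)) x
          · rw [if_pos ⟨rfl, (okp_cons R n Q b x).mpr ⟨h0, h2, h3⟩⟩, if_pos h0, if_pos h2, if_pos h3]
            norm_num
          · rw [if_neg (fun h => h3 ((okp_cons R n Q b x).mp h.2).2.2), if_neg h3]
            ring
        · rw [if_neg (fun h => h2 ((okp_cons R n Q b x).mp h.2).2.1), if_neg h2]
          ring
      · rw [if_neg (fun h => h0 ((okp_cons R n Q b x).mp h.2).1), if_neg h0]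
        ring
    · rw [if_neg hb]
      refine Finset.sum_eq_zero fun x _ => ?_
      rw [if_neg]
      rintro ⟨h, -⟩
      exact hb h
  simp only [h1, Finset.sum_ite_eq', Finset.mem_univ, if_true]
  congr 1
  -- group by the first node
  have h2 : ∀ x : Fin (n + 1) → V, (if R a (nd x 0) then (1 : ℝ) else 0) *
      (if okp R n (fun j => Q (j + 1)) x then 1 else 0) =
      ∑ y, (if R a y then (1 : ℝ) else 0) *
        (if nd x 0 = y ∧ okp R n (fun j => Q (j + 1)) x then 1 else 0) := by
    intro x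
    rw [Finset.sum_eq_single (nd x 0)]
    · by_cases h3 : okp R n (fun j => Q (j + 1)) x
      · have h4 : nd x 0 = nd x 0 ∧ okp R n (fun j => Q (j + 1)) x := ⟨rfl, h3⟩
        rw [if_pos h3, if_pos h4]
      · have h4 : ¬ (nd x 0 = nd x 0 ∧ okp R n (fun j => Q (j + 1)) x) := fun h => h3 h.2
        rw [if_neg h3, if_neg h4]
    · intro y _ hy
      have h4 : ¬ (nd x 0 = y ∧ okp R n (fun j => Q (j + 1)) x) := fun h => hy h.1.symm
      rw [if_neg h4, mul_zero]
    · intro h
      exact absurd (Finset.mem_univ _) h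
  simp only [h2]
  rw [Finset.sum_comm]
  refine Finset.sum_congr rfl fun y _ => ?_
  rw [Finset.mul_sum]

lemma cn_nonneg (R : V → V → Prop) (n : ℕ) (Q : ℕ → V → Prop) (a : V) : 0 ≤ cn R n Q a := by
  refine Finset.sum_nonneg fun x _ => ?_
  split_ifs <;> norm_num

lemma cn_mono (R : V → V → Prop) (n : ℕ) {Q Q' : ℕ → V → Prop} (h : ∀ j v, Q j v → Q' j v)
    (a : V) : cn R n Q a ≤ cn R n Q' a := by
  refine Finset.sum_le_sum fun x _ => ?_
  by_cases h1 : nd x 0 = a ∧ okp R n Q x
  · rw [if_pos h1, if_pos ⟨h1.1, h1.2.1, fun j hj => h _ _ (h1.2.2 j hj)⟩]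
  · rw [if_neg h1]
    split_ifs <;> norm_num

/-- no constraint -/
lemma cn_free {R : V → V → Prop} {d : ℝ} (h : DegOk R d) : ∀ (n : ℕ) (Q : ℕ → V → Prop) (a : V),
    cn R n Q a ≤ d ^ n
  | 0, Q, a => by
    rw [cn_zero, pow_zero]
    split_ifs <;> norm_num
  | n + 1, Q, a => by
    have : Nonempty V := ⟨a⟩
    have hd := h.d0
    have h1 : ∑ y, (if R a y then (1 : ℝ) else 0) * cn R n (fun j => Q (j + 1)) y ≤ d ^ (n + 1) := by
      calc ∑ y, (if R a y then (1 : ℝ) else 0) * cn R n (fun j => Q (j + 1)) y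
          ≤ ∑ y, (if R a y then (1 : ℝ) else 0) * d ^ n := by
            refine Finset.sum_le_sum fun y _ => mul_le_mul_of_nonneg_left (cn_free h n _ y) ?_
            split_ifs <;> norm_num
        _ = (∑ y, (if R a y then (1 : ℝ) else 0)) * d ^ n := by rw [Finset.sum_mul]
        _ ≤ d * d ^ n := mul_le_mul_of_nonneg_right (h.out a) (pow_nonneg hd n)
        _ = d ^ (n + 1) := by rw [pow_succ]; ring
    rw [cn_succ]
    have h0 : 0 ≤ ∑ y, (if R a y then (1 : ℝ) else 0) * cn R n (fun j => Q (j + 1)) y := by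
      refine Finset.sum_nonneg fun y _ => mul_nonneg ?_ (cn_nonneg _ _ _ _)
      split_ifs <;> norm_num
    split_ifs
    · rw [one_mul]; exact h1
    · rw [zero_mul]; positivity

/-- one constraint at `g` -/
lemma cn_one {R : V → V → Prop} {d : ℝ} (h : DegOk R d) : ∀ (g n : ℕ) (Q : ℕ → V → Prop)
    (a b : V), g ≤ n → (∀ v, Q g v → v = b) → cn R n Q a ≤ pn R g a b * d ^ (n - g)
  | 0, n, Q, a, b, _, hQ => by
    show _ ≤ (if a = b then (1 : ℝ) else 0) * _
    by_cases hab : a = b
    · rw [if_pos hab, one_mul, Nat.sub_zero]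
      exact cn_free h n Q a
    · rw [if_neg hab, zero_mul]
      refine le_of_eq (Finset.sum_eq_zero fun x _ => ?_)
      rw [if_neg]
      rintro ⟨h1, h2⟩
      have := hQ _ (h2.2 0 (by omega))
      rw [h1] at this
      exact hab this
  | g + 1, 0, Q, a, b, hg, _ => absurd hg (by omega)
  | g + 1, n + 1, Q, a, b, hg, hQ => by
    rw [cn_succ]
    have h0 : 0 ≤ ∑ y, (if R a y then (1 : ℝ) else 0) * cn R n (fun j => Q (j + 1)) y := by
      refine Finset.sum_nonneg fun y _ => mul_nonneg ?_ (cn_nonneg _ _ _ _)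
      split_ifs <;> norm_num
    have h1 : ∑ y, (if R a y then (1 : ℝ) else 0) * cn R n (fun j => Q (j + 1)) y ≤
        pn R (g + 1) a b * d ^ (n + 1 - (g + 1)) := by
      show _ ≤ (∑ x, (if R a x then (1 : ℝ) else 0) * pn R g x b) * _
      rw [Finset.sum_mul]
      refine Finset.sum_le_sum fun y _ => ?_
      rw [mul_assoc]
      refine mul_le_mul_of_nonneg_left ?_ (by split_ifs <;> norm_num)
      rw [Nat.add_sub_add_right]
      exact cn_one h g n _ y b (by omega) (fun v hv => hQ v hv)
    refine le_trans ?_ h1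
    split_ifs
    · rw [one_mul]
    · rw [zero_mul]; exact h0

/-- two constraints, at `g` and `g + e` -/
lemma cn_two {R : V → V → Prop} {d : ℝ} (h : DegOk R d) : ∀ (g e n : ℕ) (Q : ℕ → V → Prop)
    (a b c : V), g + e ≤ n → (∀ v, Q g v → v = b) → (∀ v, Q (g + e) v → v = c) →
      cn R n Q a ≤ pn R g a b * pn R e b c * d ^ (n - g - e)
  | 0, e, n, Q, a, b, c, hn, hQ, hQ' => by
    show _ ≤ (if a = b then (1 : ℝ) else 0) * _ * _
    by_cases hab : a = b
    · rw [if_pos hab, one_mul, Nat.sub_zero, ← hab]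
      exact cn_one h e n Q a c (by omega) (fun v hv => hQ' v (by rwa [Nat.zero_add]))
    · rw [if_neg hab, zero_mul, zero_mul]
      refine le_of_eq (Finset.sum_eq_zero fun x _ => ?_)
      rw [if_neg]
      rintro ⟨h1, h2⟩
      have := hQ _ (h2.2 0 (by omega))
      rw [h1] at this
      exact hab this
  | g + 1, e, 0, Q, a, b, c, hn, _, _ => absurd hn (by omega)
  | g + 1, e, n + 1, Q, a, b, c, hn, hQ, hQ' => by
    rw [cn_succ]
    have h0 : 0 ≤ ∑ y, (if R a y then (1 : ℝ) else 0) * cn R n (fun j => Q (j + 1)) y := by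
      refine Finset.sum_nonneg fun y _ => mul_nonneg ?_ (cn_nonneg _ _ _ _)
      split_ifs <;> norm_num
    have h1 : ∑ y, (if R a y then (1 : ℝ) else 0) * cn R n (fun j => Q (j + 1)) y ≤
        pn R (g + 1) a b * pn R e b c * d ^ (n + 1 - (g + 1) - e) := by
      show _ ≤ (∑ x, (if R a x then (1 : ℝ) else 0) * pn R g x b) * _ * _
      rw [Finset.sum_mul, Finset.sum_mul]
      refine Finset.sum_le_sum fun y _ => ?_
      rw [mul_assoc, mul_assoc]
      refine mul_le_mul_of_nonneg_left ?_ (by split_ifs <;> norm_num)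
      rw [Nat.add_sub_add_right, ← mul_assoc]
      refine cn_two h g e n _ y b c (by omega) (fun v hv => hQ v hv) (fun v hv => hQ' v ?_)
      rw [Nat.add_right_comm]
      exact hv
    refine le_trans ?_ h1
    split_ifs
    · rw [one_mul]
    · rw [zero_mul]; exact h0

/-- three constraints, at `i`, `i + g`, `i + g + e`, any first node -/
lemma cn_three {R : V → V → Prop} {d : ℝ} (h : DegOk R d) : ∀ (i g e n : ℕ) (Q : ℕ → V → Prop)
    (a b c : V), i + g + e ≤ n → (∀ v, Q i v → v = a) → (∀ v, Q (i + g) v → v = b) →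
      (∀ v, Q (i + g + e) v → v = c) →
      ∑ u, cn R n Q u ≤ d ^ i * (pn R g a b * pn R e b c * d ^ (n - i - g - e))
  | 0, g, e, n, Q, a, b, c, hn, hQ, hQ1, hQ2 => by
    have h1 : ∑ u, cn R n Q u = cn R n Q a := by
      refine Finset.sum_eq_single a (fun u _ hu => ?_) (fun h => absurd (Finset.mem_univ _) h)
      refine Finset.sum_eq_zero fun x _ => ?_
      rw [if_neg]
      rintro ⟨h1, h2⟩
      have := hQ _ (h2.2 0 (by omega))
      rw [h1] at this
      exact hu this
    rw [h1, pow_zero, one_mul, Nat.sub_zero]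
    refine cn_two h g e n Q a b c (by omega) (fun v hv => hQ1 v (by rwa [Nat.zero_add]))
      (fun v hv => hQ2 v ?_)
    rw [Nat.zero_add]
    exact hv
  | i + 1, g, e, 0, Q, a, b, c, hn, _, _, _ => absurd hn (by omega)
  | i + 1, g, e, n + 1, Q, a, b, c, hn, hQ, hQ1, hQ2 => by
    have : Nonempty V := ⟨a⟩
    have hd := h.d0
    have h1 : ∀ u, cn R (n + 1) Q u ≤
        ∑ y, (if R u y then (1 : ℝ) else 0) * cn R n (fun j => Q (j + 1)) y := by
      intro u
      rw [cn_succ]
      have h0 : 0 ≤ ∑ y, (if R u y then (1 : ℝ) else 0) * cn R n (fun j => Q (j + 1)) y := by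
        refine Finset.sum_nonneg fun y _ => mul_nonneg ?_ (cn_nonneg _ _ _ _)
        split_ifs <;> norm_num
      split_ifs
      · rw [one_mul]
      · rw [zero_mul]; exact h0
    have h2 := cn_three h i g e n (fun j => Q (j + 1)) a b c (by omega) (fun v hv => hQ v hv)
      (fun v hv => hQ1 v (by rw [show i + 1 + g = i + g + 1 by omega]; exact hv))
      (fun v hv => hQ2 v (by rw [show i + 1 + g + e = i + g + e + 1 by omega]; exact hv))
    calc ∑ u, cn R (n + 1) Q u
        ≤ ∑ u, ∑ y, (if R u y then (1 : ℝ) else 0) * cn R n (fun j => Q (j + 1)) y :=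
          Finset.sum_le_sum fun u _ => h1 u
      _ = ∑ y, (∑ u, (if R u y then (1 : ℝ) else 0)) * cn R n (fun j => Q (j + 1)) y := by
          rw [Finset.sum_comm]
          simp only [Finset.sum_mul]
      _ ≤ ∑ y, d * cn R n (fun j => Q (j + 1)) y :=
          Finset.sum_le_sum fun y _ => mul_le_mul_of_nonneg_right (h.inn y) (cn_nonneg _ _ _ _)
      _ = d * ∑ y, cn R n (fun j => Q (j + 1)) y := by rw [Finset.mul_sum]
      _ ≤ d * (d ^ i * (pn R g a b * pn R e b c * d ^ (n - i - g - e))) :=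
          mul_le_mul_of_nonneg_left h2 hd
      _ = d ^ (i + 1) * (pn R g a b * pn R e b c * d ^ (n + 1 - (i + 1) - g - e)) := by
          rw [Nat.add_sub_add_right, pow_succ]
          ring

/-- total number of sequences -/
lemma sum_cn (R : V → V → Prop) (n : ℕ) (Q : ℕ → V → Prop) :
    ∑ u, cn R n Q u = ((univ.filter fun x : Fin (n + 1) → V => okp R n Q x).card : ℝ) := by
  unfold cn
  rw [Finset.sum_comm, Finset.card_filter]
  push_cast
  refine Finset.sum_congr rfl fun x _ => ?_
  rw [Finset.sum_eq_single (nd x 0)]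
  · by_cases h : okp R n Q x
    · rw [if_pos h, if_pos ⟨rfl, h⟩]
    · rw [if_neg h, if_neg (fun h' => h h'.2)]
  · intro u _ hu
    rw [if_neg (fun h => hu h.1.symm)]
  · intro h
    exact absurd (Finset.mem_univ _) h

/-- walks are counted by sequences -/
lemma card_wk_le (C : Cl V) (T : ℕ) (Q : ℕ → V → Prop) (S : Finset (C.Wk T))
    (hS : ∀ w ∈ S, ∀ j, j ≤ T → Q j (w.n j)) :
    (S.card : ℝ) ≤ ((univ.filter fun x : Fin (T + 1) → V => okp C.gam T Q x).card : ℝ) := by
  have h : S.card ≤ (univ.filter fun x : Fin (T + 1) → V => okp C.gam T Q x).card := by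
    refine Finset.card_le_card_of_injOn (fun w => w.1) ?_ ?_
    · intro w hw
      refine Finset.mem_coe.mpr (Finset.mem_filter.mpr ⟨Finset.mem_univ _, ?_, hS w hw⟩)
      exact w.2.step
    · intro w _ w' _ hww
      exact Subtype.ext hww
  exact_mod_cast h

/-- three prescribed nodes -/
lemma card_three {C : Cl V} {d : ℝ} (h : C.Ok d) {T i g e : ℕ} (hT : i + g + e ≤ T) (a b c : V)
    (S : Finset (C.Wk T)) (hS : ∀ w ∈ S, w.n i = a ∧ w.n (i + g) = b ∧ w.n (i + g + e) = c) :
    (S.card : ℝ) ≤ d ^ i * (C.np g a b * C.np e b c * d ^ (T - i - g - e)) := by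
  have h1 := card_wk_le C T (fun j v => (j = i → v = a) ∧ (j = i + g → v = b) ∧
    (j = i + g + e → v = c)) S (fun w hw j hj => ⟨fun hji => by rw [hji]; exact (hS w hw).1,
      fun hji => by rw [hji]; exact (hS w hw).2.1, fun hji => by rw [hji]; exact (hS w hw).2.2⟩)
  refine h1.trans ?_
  rw [← sum_cn, np_eq, np_eq]
  exact cn_three (degOk h) i g e T _ a b c hT (fun v hv => hv.1 rfl) (fun v hv => hv.2.1 rfl)
    (fun v hv => hv.2.2 rfl)

theorem wpc : WPCStmt := by
  intro V _ C d T p z r hp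
  have hd : 0 < d := lt_of_lt_of_le one_pos hp.ok.one_le
  have h3 : ∀ i g a b, i + g ≤ T →
      p * ((univ.filter fun w : C.Wk T => w.n i = a ∧ w.n (i + g) = b).card : ℝ) ≤
        2 * z * C.np g a b / d ^ g := by
    intro i g a b hig
    have h1 := card_three (e := 0) hp.ok (T := T) (i := i) (g := g) (by omega) a b b
      (univ.filter fun w : C.Wk T => w.n i = a ∧ w.n (i + g) = b)
      (fun w hw => ⟨(Finset.mem_filter.mp hw).2.1, (Finset.mem_filter.mp hw).2.2,
        (Finset.mem_filter.mp hw).2.2⟩)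
    have h2 : (C.np 0 b b : ℝ) = 1 := by
      rw [np_eq]
      show (if b = b then (1 : ℝ) else 0) = 1
      rw [if_pos rfl]
    rw [h2, mul_one, Nat.sub_zero] at h1
    rw [le_div_iff₀ (pow_pos hd g)]
    have h4 : d ^ i * d ^ (T - i - g) * d ^ g = d ^ T := by
      rw [← pow_add, ← pow_add]
      congr 1
      omega
    calc p * ((univ.filter fun w : C.Wk T => w.n i = a ∧ w.n (i + g) = b).card : ℝ) * d ^ g
        ≤ p * (d ^ i * (C.np g a b * d ^ (T - i - g))) * d ^ g := by
          have := hp.p0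
          gcongr
      _ = (p * d ^ T) * C.np g a b := by rw [← h4]; ring
      _ ≤ (2 * z) * C.np g a b := mul_le_mul_of_nonneg_right hp.pd (Nat.cast_nonneg _)
  have h1 : ∀ i a, i ≤ T → p * ((univ.filter fun w : C.Wk T => w.n i = a).card : ℝ) ≤ 2 * z := by
    intro i a hi
    have h4 := h3 i 0 a a (by omega)
    have h2 : (C.np 0 a a : ℝ) = 1 := by
      rw [np_eq]
      show (if a = a then (1 : ℝ) else 0) = 1
      rw [if_pos rfl]
    rw [h2, pow_zero, mul_one, div_one] at h4
    simp only [Nat.add_zero, and_self] at h4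
    exact h4
  refine ⟨h1, ?_, h3⟩
  intro u
  have h4 : (univ.filter fun w : C.Wk T => w.has u) ⊆
      (Finset.range (T + 1)).biUnion fun i => univ.filter fun w : C.Wk T => w.n i = u := by
    intro w hw
    obtain ⟨i, hi, hiu⟩ := (Finset.mem_filter.mp hw).2
    exact Finset.mem_biUnion.mpr ⟨i, Finset.mem_range.mpr (by omega),
      Finset.mem_filter.mpr ⟨Finset.mem_univ _, hiu⟩⟩
  have h5 := (Finset.card_le_card h4).trans Finset.card_biUnion_le
  have h6 : ((univ.filter fun w : C.Wk T => w.has u).card : ℝ) ≤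
      ∑ i ∈ Finset.range (T + 1), ((univ.filter fun w : C.Wk T => w.n i = u).card : ℝ) := by
    exact_mod_cast h5
  calc p * ((univ.filter fun w : C.Wk T => w.has u).card : ℝ)
      ≤ p * ∑ i ∈ Finset.range (T + 1), ((univ.filter fun w : C.Wk T => w.n i = u).card : ℝ) :=
        mul_le_mul_of_nonneg_left h6 hp.p0.le
    _ = ∑ i ∈ Finset.range (T + 1), p * ((univ.filter fun w : C.Wk T => w.n i = u).card : ℝ) := by
        rw [Finset.mul_sum]
    _ ≤ ∑ i ∈ Finset.range (T + 1), 2 * z :=
        Finset.sum_le_sum fun i hi => h1 i u (by have := Finset.mem_range.mp hi; omega)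
    _ = 2 * r := by
        rw [Finset.sum_const, Finset.card_range, nsmul_eq_mul, ← hp.zr]
        push_cast
        ring

end

end Pool.Agent.C4K.H48
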