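import Pool.Agent.Helper48_C4K.Cnt

/-!
# SSS: sums over the walks
-/

set_option autoImplicit false

namespace Pool.Agent.C4K.H48

open Finset Helper48NP
open scoped Classical

noncomputable section

variable {V : Type} [Fintype V]

/-- exchange of the sum over the walks and the pairs -/
lemma sum_prs (C : Cl V) (T : ℕ) (p : ℝ) (Q : C.Wk T → ℕ → ℕ → Prop) :
    p * ∑ w : C.Wk T, prs T (Q w) = ∑ i ∈ range T, ∑ l ∈ range T,
      if i ≤ l then p * ((univ.filter fun w : C.Wk T => Q w i l).card : ℝ) else 0 := by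
  have h1 : ∀ w : C.Wk T, prs T (Q w) = ∑ i ∈ range T, ∑ l ∈ range T,
      if i ≤ l then (if Q w i l then (1 : ℝ) else 0) else 0 := by
    intro w
    unfold prs
    rw [Finset.card_filter]
    push_cast
    rw [Finset.sum_product]
    refine Finset.sum_congr rfl fun i _ => Finset.sum_congr rfl fun l _ => ?_
    by_cases h : i ≤ l
    · by_cases h' : Q w i l
      · rw [if_pos ⟨h, h'⟩, if_pos h, if_pos h']
      · rw [if_neg (fun h'' => h' h''.2), if_pos h, if_neg h']
    · rw [if_neg (fun h'' => h h''.1), if_neg h]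
  simp only [h1]
  rw [Finset.sum_comm, Finset.mul_sum]
  refine Finset.sum_congr rfl fun i _ => ?_
  rw [Finset.sum_comm, Finset.mul_sum]
  refine Finset.sum_congr rfl fun l _ => ?_
  by_cases h : i ≤ l
  · simp only [if_pos h]
    rw [Finset.card_filter]
    push_cast
    rfl
  · simp only [if_neg h]
    rw [Finset.sum_const_zero, mul_zero]

/-- pointwise bounds: `c1` on the diagonal, `c2`, `c2`, `c3` on the next ones, `c4` further away -/
lemma sum_pairs {T : ℕ} {G : ℕ → ℕ → ℝ} {c1 c2 c3 c4 c : ℝ} (h2 : 0 ≤ c2) (h3 : 0 ≤ c3)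
    (h4 : 0 ≤ c4)
    (hG : ∀ i l, i ≤ l → l < T → G i l ≤ (if l = i then c1 else 0) +
      (if l = i + 1 then c2 else 0) + (if l = i + 2 then c2 else 0) +
      (if l = i + 3 then c3 else 0) + c4)
    (h1 : 0 ≤ c1) (hc : c1 + 2 * c2 + c3 + T * c4 ≤ c) :
    (∑ i ∈ range T, ∑ l ∈ range T, if i ≤ l then G i l else 0) ≤ T * c := by
  have hone : ∀ (k : ℕ) (x : ℝ), 0 ≤ x → ∑ l ∈ range T, (if l = k then x else 0) ≤ x := by
    intro k x hx
    rw [Finset.sum_ite_eq']
    split_ifs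
    · exact le_rfl
    · exact hx
  have hi : ∀ i ∈ range T, (∑ l ∈ range T, if i ≤ l then G i l else 0) ≤ c := by
    intro i _
    calc (∑ l ∈ range T, if i ≤ l then G i l else 0)
        ≤ ∑ l ∈ range T, ((if l = i then c1 else 0) + (if l = i + 1 then c2 else 0) +
          (if l = i + 2 then c2 else 0) + (if l = i + 3 then c3 else 0) + c4) := by
          refine Finset.sum_le_sum fun l hl => ?_
          by_cases h : i ≤ l
          · rw [if_pos h]
            exact hG i l h (Finset.mem_range.mp hl)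
          · rw [if_neg h]
            have a1 : (0 : ℝ) ≤ if l = i then c1 else 0 := by split_ifs; exacts [h1, le_rfl]
            have a2 : (0 : ℝ) ≤ if l = i + 1 then c2 else 0 := by split_ifs; exacts [h2, le_rfl]
            have a3 : (0 : ℝ) ≤ if l = i + 2 then c2 else 0 := by split_ifs; exacts [h2, le_rfl]
            have a4 : (0 : ℝ) ≤ if l = i + 3 then c3 else 0 := by split_ifs; exacts [h3, le_rfl]
            linarith
      _ = (∑ l ∈ range T, if l = i then c1 else 0) + (∑ l ∈ range T, if l = i + 1 then c2 else 0) +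
          (∑ l ∈ range T, if l = i + 2 then c2 else 0) +
          (∑ l ∈ range T, if l = i + 3 then c3 else 0) + T * c4 := by
          rw [Finset.sum_add_distrib, Finset.sum_add_distrib, Finset.sum_add_distrib,
            Finset.sum_add_distrib, Finset.sum_const, Finset.card_range, nsmul_eq_mul]
      _ ≤ c1 + c2 + c2 + c3 + T * c4 := by
          have b1 := hone i c1 h1
          have b2 := hone (i + 1) c2 h2
          have b3 := hone (i + 2) c2 h2
          have b4 := hone (i + 3) c3 h3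
          linarith
      _ ≤ c := by linarith
  calc (∑ i ∈ range T, ∑ l ∈ range T, if i ≤ l then G i l else 0)
      ≤ ∑ i ∈ range T, c := Finset.sum_le_sum hi
    _ = T * c := by rw [Finset.sum_const, Finset.card_range, nsmul_eq_mul]

/-- two prescribed sets -/
lemma card_FB {C : Cl V} {T : ℕ} (i g : ℕ) (F B : Finset V) (S : Finset (C.Wk T))
    (hS : ∀ w ∈ S, w.n i ∈ F ∧ w.n (i + g) ∈ B) (p : ℝ) (hp : 0 ≤ p) :
    p * (S.card : ℝ) ≤ ∑ a ∈ F, ∑ b ∈ B,
      p * ((univ.filter fun w : C.Wk T => w.n i = a ∧ w.n (i + g) = b).card : ℝ) := by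
  have h1 : S ⊆ F.biUnion fun a => B.biUnion fun b =>
      univ.filter fun w : C.Wk T => w.n i = a ∧ w.n (i + g) = b := by
    intro w hw
    exact Finset.mem_biUnion.mpr ⟨_, (hS w hw).1, Finset.mem_biUnion.mpr ⟨_, (hS w hw).2,
      Finset.mem_filter.mpr ⟨Finset.mem_univ _, rfl, rfl⟩⟩⟩
  have h2 : S.card ≤ ∑ a ∈ F, ∑ b ∈ B,
      (univ.filter fun w : C.Wk T => w.n i = a ∧ w.n (i + g) = b).card := by
    refine (Finset.card_le_card h1).trans (Finset.card_biUnion_le.trans ?_)
    exact Finset.sum_le_sum fun a _ => Finset.card_biUnion_le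
  have h3 : (S.card : ℝ) ≤ ∑ a ∈ F, ∑ b ∈ B,
      ((univ.filter fun w : C.Wk T => w.n i = a ∧ w.n (i + g) = b).card : ℝ) := by
    exact_mod_cast h2
  calc p * (S.card : ℝ) ≤ p * ∑ a ∈ F, ∑ b ∈ B,
      ((univ.filter fun w : C.Wk T => w.n i = a ∧ w.n (i + g) = b).card : ℝ) :=
        mul_le_mul_of_nonneg_left h3 hp
    _ = _ := by
        rw [Finset.mul_sum]
        exact Finset.sum_congr rfl fun a _ => by rw [Finset.mul_sum]

/-- `∑_{b ∈ B} N_2(a,b) ≤ √|B| √2 d` -/
lemma np2_sum {C : Cl V} {d : ℝ} (hc : Cnt C d) (hd : 0 ≤ d) (a : V) (B : Finset V) :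
    ∑ b ∈ B, (C.np 2 a b : ℝ) ≤ Real.sqrt B.card * (Real.sqrt 2 * d) := by
  have h1 := Finset.sum_mul_sq_le_sq_mul_sq B (fun _ => (1 : ℝ)) (fun b => (C.np 2 a b : ℝ))
  have h2 : ∑ b ∈ B, (C.np 2 a b : ℝ) ^ 2 ≤ 2 * d ^ 2 :=
    (Finset.sum_le_sum_of_subset_of_nonneg (Finset.subset_univ B)
      (fun b _ _ => sq_nonneg _)).trans (hc.n2a a)
  simp only [one_mul, one_pow, Finset.sum_const, nsmul_eq_mul, mul_one] at h1
  have h3 : (∑ b ∈ B, (C.np 2 a b : ℝ)) ^ 2 ≤ (Real.sqrt B.card * (Real.sqrt 2 * d)) ^ 2 := by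
    rw [mul_pow, mul_pow, Real.sq_sqrt (Nat.cast_nonneg _), Real.sq_sqrt (by norm_num)]
    exact h1.trans (mul_le_mul_of_nonneg_left h2 (Nat.cast_nonneg _))
  exact abs_le_of_sq_le_sq' h3 (by positivity) |>.2

/-- the numbers of paths between two sets -/
lemma np_FB (kst : KSTStmt) {C : Cl V} {d : ℝ} (hok : C.Ok d) (F B : Finset V) (t : ℕ)
    (ht : 1 ≤ t) (hF : F.card ≤ t + 1) (hB : B.card ≤ t + 1) :
    (∑ a ∈ F, ∑ b ∈ univ.filter (fun b => ∃ y ∈ B, C.f b = some y), (C.np 1 a b : ℝ) ≤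
      6 * (t * Real.sqrt t)) ∧
    (∀ g, g = 2 ∨ g = 3 → ∑ a ∈ F, ∑ b ∈ univ.filter (fun b => ∃ y ∈ B, C.f b = some y),
      (C.np g a b : ℝ) ≤ 4 * (t * Real.sqrt t) * d ^ (g - 1)) ∧
    (∀ g, 4 ≤ g → ∑ a ∈ F, ∑ b ∈ univ.filter (fun b => ∃ y ∈ B, C.f b = some y),
      (C.np g a b : ℝ) ≤ 8 * (t : ℝ) ^ 2 * d ^ (g - 2)) := by
  have hd : 0 ≤ d := zero_le_one.trans hok.one_le
  have hc := wcn V C d hok
  obtain ⟨B', hB'⟩ : ∃ B', B' = univ.filter (fun b => ∃ y ∈ B, C.f b = some y) := ⟨_, rfl⟩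
  rw [← hB']
  have hBc : B'.card ≤ t + 1 := by
    refine le_trans ?_ hB
    have h1 : ∀ b ∈ B', ∃ y ∈ B, C.f b = some y := by
      intro b hb
      rw [hB'] at hb
      exact (Finset.mem_filter.mp hb).2
    refine Finset.card_le_card_of_injOn (fun b => if h : b ∈ B' then (h1 b h).choose else b) ?_ ?_
    · intro b hb
      have hb' : b ∈ B' := Finset.mem_coe.mp hb
      show (if h : b ∈ B' then (h1 b h).choose else b) ∈ (B : Set V)
      rw [dif_pos hb']
      exact Finset.mem_coe.mpr (h1 b hb').choose_spec.1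
    · intro b hb b' hb' hbb
      have hb1 : b ∈ B' := Finset.mem_coe.mp hb
      have hb2 : b' ∈ B' := Finset.mem_coe.mp hb'
      have hbb' : (if h : b ∈ B' then (h1 b h).choose else b) =
        (if h : b' ∈ B' then (h1 b' h).choose else b') := hbb
      rw [dif_pos hb1, dif_pos hb2] at hbb'
      have e1 := (h1 b hb1).choose_spec.2
      have e2 := (h1 b' hb2).choose_spec.2
      rw [hbb'] at e1
      exact hok.inj _ _ _ e1 e2
  have ht' : (1 : ℝ) ≤ t := by exact_mod_cast ht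
  have hFr : (F.card : ℝ) ≤ t + 1 := by exact_mod_cast hF
  have hBr : (B.card : ℝ) ≤ t + 1 := by exact_mod_cast hB
  have hB'r : (B'.card : ℝ) ≤ t + 1 := by exact_mod_cast hBc
  have hst : 1 ≤ Real.sqrt t := Real.one_le_sqrt.mpr ht'
  have hs0 : 0 ≤ Real.sqrt t := Real.sqrt_nonneg _
  -- (t+1) ≤ 2 t, sqrt (t+1) ≤ sqrt 2 sqrt t
  have hsq : Real.sqrt (t + 1) ≤ Real.sqrt 2 * Real.sqrt t := by
    rw [← Real.sqrt_mul (by norm_num)]
    exact Real.sqrt_le_sqrt (by linarith)
  have h22 : Real.sqrt 2 * Real.sqrt 2 = 2 := Real.mul_self_sqrt (by norm_num)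
  have hs2 : Real.sqrt 2 ≤ 3 / 2 := by
    rw [Real.sqrt_le_left (by norm_num)]
    norm_num
  have hs20 : 0 ≤ Real.sqrt 2 := Real.sqrt_nonneg _
  refine ⟨?_, ?_, ?_⟩
  · have h1 : (∑ a ∈ F, ∑ b ∈ B', (C.np 1 a b : ℝ)) ≤
        (((F ×ˢ B).filter fun x => C.P x.1 x.2).card : ℝ) := by
      have e1 : (∑ a ∈ F, ∑ b ∈ B', (C.np 1 a b : ℝ)) =
          (((F ×ˢ B').filter fun x => C.gam x.1 x.2).card : ℝ) := by
        rw [Finset.card_filter, Finset.sum_product]
        push_cast
        refine Finset.sum_congr rfl fun a _ => Finset.sum_congr rfl fun b _ => ?_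
        rw [np_eq, pn_one]
      rw [e1]
      have e2 : ((F ×ˢ B').filter fun x => C.gam x.1 x.2).card ≤
          ((F ×ˢ B).filter fun x => C.P x.1 x.2).card := by
        have h2 : ∀ x ∈ (F ×ˢ B').filter fun x => C.gam x.1 x.2, ∃ y, C.f x.2 = some y ∧
            C.P x.1 y ∧ y ∈ B := by
          intro x hx
          obtain ⟨hx1, -, -, y, hy, hP⟩ := Finset.mem_filter.mp hx
          have hx2 := (Finset.mem_product.mp hx1).2
          rw [hB'] at hx2
          obtain ⟨-, y', hy', hy2⟩ := Finset.mem_filter.mp hx2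
          rw [hy] at hy2
          obtain rfl : y = y' := Option.some.inj hy2
          exact ⟨y, hy, hP, hy'⟩
        refine Finset.card_le_card_of_injOn (fun x => if h : x ∈
          (F ×ˢ B').filter (fun x => C.gam x.1 x.2) then (x.1, (h2 x h).choose) else x) ?_ ?_
        · intro x hx
          have hx' := Finset.mem_coe.mp hx
          show (if h : x ∈ (F ×ˢ B').filter (fun x => C.gam x.1 x.2) then
            (x.1, (h2 x h).choose) else x) ∈ _
          rw [dif_pos hx']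
          obtain ⟨-, k2, k3⟩ := (h2 x hx').choose_spec
          exact Finset.mem_coe.mpr (Finset.mem_filter.mpr ⟨Finset.mem_product.mpr
            ⟨(Finset.mem_product.mp (Finset.mem_filter.mp hx').1).1, k3⟩, k2⟩)
        · intro x hx x' hx' hxx
          have hx1 := Finset.mem_coe.mp hx
          have hx2 := Finset.mem_coe.mp hx'
          have hxx' : (if h : x ∈ (F ×ˢ B').filter (fun x => C.gam x.1 x.2) then
              (x.1, (h2 x h).choose) else x) = (if h : x' ∈ (F ×ˢ B').filter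
              (fun x => C.gam x.1 x.2) then (x'.1, (h2 x' h).choose) else x') := hxx
          rw [dif_pos hx1, dif_pos hx2] at hxx'
          have k1 := (h2 x hx1).choose_spec.1
          have k2 := (h2 x' hx2).choose_spec.1
          have k3 : (h2 x hx1).choose = (h2 x' hx2).choose := (Prod.mk.inj hxx').2
          rw [k3] at k1
          have k4 : x.2 = x'.2 := hok.inj _ _ _ k1 k2
          have k5 : x.1 = x'.1 := (Prod.mk.inj hxx').1
          exact Prod.ext k5 k4
      exact_mod_cast e2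
    refine h1.trans ((kst V C d hok F B).trans ?_)
    have h3 : Real.sqrt B.card ≤ Real.sqrt 2 * Real.sqrt t := (Real.sqrt_le_sqrt hBr).trans hsq
    have h4 : (F.card : ℝ) * Real.sqrt B.card ≤ (t + 1) * (Real.sqrt 2 * Real.sqrt t) :=
      mul_le_mul hFr h3 (Real.sqrt_nonneg _) (by linarith)
    have h5 : (t + 1 : ℝ) ≤ 2 * t := by linarith
    have h6 : (t + 1 : ℝ) * (Real.sqrt 2 * Real.sqrt t) ≤ 2 * t * (3 / 2 * Real.sqrt t) := by
      gcongr
    have h7 : (t : ℝ) ≤ t * Real.sqrt t := by nlinarith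
    nlinarith
  · have hrow : ∀ a : V, ∑ b ∈ B', (C.np 2 a b : ℝ) ≤ 2 * Real.sqrt t * d := by
      intro a
      refine (np2_sum hc hd a B').trans ?_
      have h3 : Real.sqrt B'.card ≤ Real.sqrt 2 * Real.sqrt t := (Real.sqrt_le_sqrt hB'r).trans hsq
      calc Real.sqrt B'.card * (Real.sqrt 2 * d) ≤ (Real.sqrt 2 * Real.sqrt t) * (Real.sqrt 2 * d) :=
            mul_le_mul_of_nonneg_right h3 (by positivity)
        _ = (Real.sqrt 2 * Real.sqrt 2) * Real.sqrt t * d := by ring
        _ = 2 * Real.sqrt t * d := by rw [h22]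
    have hrow3 : ∀ a : V, ∑ b ∈ B', (C.np 3 a b : ℝ) ≤ 2 * Real.sqrt t * d ^ 2 := by
      intro a
      have e1 : ∑ b ∈ B', (C.np 3 a b : ℝ) = ∑ u, (C.np 1 a u : ℝ) * ∑ b ∈ B', (C.np 2 u b : ℝ) := by
        have e2 : ∀ b, (C.np 3 a b : ℝ) = ∑ u, (C.np 1 a u : ℝ) * (C.np 2 u b : ℝ) := by
          intro b
          rw [show (3 : ℕ) = 1 + 2 from rfl, hc.add]
          push_cast
          rfl
        simp only [e2, Finset.mul_sum]
        rw [Finset.sum_comm]
      rw [e1]
      calc ∑ u, (C.np 1 a u : ℝ) * ∑ b ∈ B', (C.np 2 u b : ℝ)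
          ≤ ∑ u, (C.np 1 a u : ℝ) * (2 * Real.sqrt t * d) :=
            Finset.sum_le_sum fun u _ => mul_le_mul_of_nonneg_left (hrow u) (Nat.cast_nonneg _)
        _ = (∑ u, (C.np 1 a u : ℝ)) * (2 * Real.sqrt t * d) := by rw [Finset.sum_mul]
        _ ≤ d ^ 1 * (2 * Real.sqrt t * d) :=
            mul_le_mul_of_nonneg_right (hc.n1a 1 a) (by positivity)
        _ = 2 * Real.sqrt t * d ^ 2 := by ring
    have hsum : ∀ c : ℝ, 0 ≤ c → (F.card : ℝ) * (2 * Real.sqrt t * c) ≤
        4 * (t * Real.sqrt t) * c := by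
      intro c hc0
      have h5 : (F.card : ℝ) ≤ 2 * t := by linarith
      calc (F.card : ℝ) * (2 * Real.sqrt t * c) ≤ (2 * t) * (2 * Real.sqrt t * c) :=
            mul_le_mul_of_nonneg_right h5 (by positivity)
        _ = 4 * (t * Real.sqrt t) * c := by ring
    intro g hg
    rcases hg with rfl | rfl
    · refine (Finset.sum_le_sum fun a _ => hrow a).trans ?_
      rw [Finset.sum_const, nsmul_eq_mul, show 2 - 1 = 1 from rfl, pow_one]
      exact hsum d hd
    · refine (Finset.sum_le_sum fun a _ => hrow3 a).trans ?_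
      rw [Finset.sum_const, nsmul_eq_mul, show 3 - 1 = 2 from rfl]
      exact hsum (d ^ 2) (by positivity)
  · intro g hg
    calc ∑ a ∈ F, ∑ b ∈ B', (C.np g a b : ℝ)
        ≤ ∑ a ∈ F, ∑ b ∈ B', 2 * d ^ (g - 2) :=
          Finset.sum_le_sum fun a _ => Finset.sum_le_sum fun b _ => hc.n4 g a b hg
      _ = (F.card : ℝ) * B'.card * (2 * d ^ (g - 2)) := by
          rw [Finset.sum_const, Finset.sum_const, nsmul_eq_mul, nsmul_eq_mul]
          ring
      _ ≤ (2 * t) * (2 * t) * (2 * d ^ (g - 2)) := by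
          have a1 : (F.card : ℝ) ≤ 2 * t := by linarith
          have a2 : (B'.card : ℝ) ≤ 2 * t := by linarith
          have a3 : (0 : ℝ) ≤ 2 * d ^ (g - 2) := by positivity
          gcongr
      _ = 8 * (t : ℝ) ^ 2 * d ^ (g - 2) := by ring

/-- [S] -/
lemma sS (kst : KSTStmt) {C : Cl V} {d : ℝ} {T : ℕ} {p z r : ℝ} (hp : Par C d T p z r)
    (F B : Finset V) (t : ℕ) (ht : 1 ≤ t) (hF : F.card ≤ t + 1) (hB : B.card ≤ t + 1) :
    p * ∑ w : C.Wk T, prs T (fun i l => w.n i ∈ F ∧ ∃ y ∈ B, w.hd l y) ≤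
        r * (30 * (t * Real.sqrt t) / d + 16 * T * (t : ℝ) ^ 2 / d ^ 2) := by
  have hd1 := hp.ok.one_le
  have hd : 0 < d := lt_of_lt_of_le one_pos hd1
  have hz := hp.z0
  obtain ⟨k1, k2, k4⟩ := np_FB kst hp.ok F B t ht hF hB
  obtain ⟨B', hB'⟩ : ∃ B', B' = univ.filter (fun b => ∃ y ∈ B, C.f b = some y) := ⟨_, rfl⟩
  rw [← hB'] at k1 k2 k4
  obtain ⟨-, -, hw⟩ := wpc V C d T p z r hp
  have key : ∀ i g, i + g ≤ T →
      p * ((univ.filter fun w : C.Wk T => w.n i ∈ F ∧ w.n (i + g) ∈ B').card : ℝ) ≤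
        2 * z / d ^ g * ∑ a ∈ F, ∑ b ∈ B', (C.np g a b : ℝ) := by
    intro i g hig
    refine (card_FB i g F B' _ (fun w hw => (Finset.mem_filter.mp hw).2) p hp.p0.le).trans ?_
    rw [Finset.mul_sum]
    refine Finset.sum_le_sum fun a _ => ?_
    rw [Finset.mul_sum]
    refine Finset.sum_le_sum fun b _ => (hw i g a b hig).trans (le_of_eq ?_)
    ring
  obtain ⟨s, hs⟩ : ∃ s, s = (t : ℝ) * Real.sqrt t := ⟨_, rfl⟩
  have hs0 : 0 ≤ s := by rw [hs]; positivity
  rw [← hs] at k1 k2 ⊢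
  obtain ⟨Q, hQ⟩ : ∃ Q : C.Wk T → ℕ → ℕ → Prop,
    Q = fun w i l => w.n i ∈ F ∧ ∃ y ∈ B, w.hd l y := ⟨_, rfl⟩
  have e0 : (∑ w : C.Wk T, prs T (fun i l => w.n i ∈ F ∧ ∃ y ∈ B, w.hd l y)) =
      ∑ w : C.Wk T, prs T (Q w) := by rw [hQ]
  rw [e0, sum_prs C T p Q]
  have hzr : (T : ℝ) * z ≤ r := by rw [← hp.zr]; nlinarith
  have hG : ∀ i l, i ≤ l → l < T → p * ((univ.filter fun w : C.Wk T => Q w i l).card : ℝ) ≤
      2 * z / d ^ (l + 1 - i) * ∑ a ∈ F, ∑ b ∈ B', (C.np (l + 1 - i) a b : ℝ) := by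
    intro i l hil hl
    refine le_trans (mul_le_mul_of_nonneg_left ?_ hp.p0.le) (key i (l + 1 - i) (by omega))
    have h1 : (univ.filter fun w : C.Wk T => Q w i l) ⊆
        univ.filter fun w : C.Wk T => w.n i ∈ F ∧ w.n (i + (l + 1 - i)) ∈ B' := by
      intro w hw
      have hw' := (Finset.mem_filter.mp hw).2
      rw [hQ] at hw'
      obtain ⟨a1, y, a2, a3⟩ := hw'
      refine Finset.mem_filter.mpr ⟨Finset.mem_univ _, a1, ?_⟩
      rw [hB', show i + (l + 1 - i) = l + 1 by omega]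
      exact Finset.mem_filter.mpr ⟨Finset.mem_univ _, y, a2, a3⟩
    exact_mod_cast Finset.card_le_card h1
  have hmain := sum_pairs (T := T)
    (G := fun i l => p * ((univ.filter fun w : C.Wk T => Q w i l).card : ℝ))
    (c1 := 12 * z * s / d) (c2 := 8 * z * s / d) (c3 := 0) (c4 := 16 * z * (t : ℝ) ^ 2 / d ^ 2)
    (c := z * (30 * s / d + 16 * T * (t : ℝ) ^ 2 / d ^ 2))
    (by positivity) le_rfl (by positivity) ?_ (by positivity) ?_
  · refine hmain.trans ?_
    rw [← mul_assoc]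
    exact mul_le_mul_of_nonneg_right hzr (by positivity)
  · intro i l hil hl
    refine (hG i l hil hl).trans ?_
    have p1 : (0 : ℝ) ≤ if l = i then 12 * z * s / d else 0 := by split_ifs <;> positivity
    have p2 : (0 : ℝ) ≤ if l = i + 1 then 8 * z * s / d else 0 := by split_ifs <;> positivity
    have p3 : (0 : ℝ) ≤ if l = i + 2 then 8 * z * s / d else 0 := by split_ifs <;> positivity
    have p4 : (0 : ℝ) ≤ if l = i + 3 then (0 : ℝ) else 0 := by split_ifs <;> exact le_rfl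
    have p5 : (0 : ℝ) ≤ 16 * z * (t : ℝ) ^ 2 / d ^ 2 := by positivity
    rcases (show l = i ∨ l = i + 1 ∨ l = i + 2 ∨ i + 3 ≤ l by omega) with h | h | h | h
    · have e1 : l + 1 - i = 1 := by omega
      rw [e1]
      have : 2 * z / d ^ 1 * ∑ a ∈ F, ∑ b ∈ B', (C.np 1 a b : ℝ) ≤ 12 * z * s / d := by
        calc 2 * z / d ^ 1 * ∑ a ∈ F, ∑ b ∈ B', (C.np 1 a b : ℝ)
            ≤ 2 * z / d ^ 1 * (6 * s) := mul_le_mul_of_nonneg_left k1 (by positivity)
          _ = 12 * z * s / d := by rw [pow_one]; ring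
      rw [if_pos h] at p1 ⊢
      linarith
    · have e1 : l + 1 - i = 2 := by omega
      rw [e1]
      have : 2 * z / d ^ 2 * ∑ a ∈ F, ∑ b ∈ B', (C.np 2 a b : ℝ) ≤ 8 * z * s / d := by
        calc 2 * z / d ^ 2 * ∑ a ∈ F, ∑ b ∈ B', (C.np 2 a b : ℝ)
            ≤ 2 * z / d ^ 2 * (4 * s * d ^ (2 - 1)) :=
              mul_le_mul_of_nonneg_left (k2 2 (Or.inl rfl)) (by positivity)
          _ = 8 * z * s / d := by
              rw [show 2 - 1 = 1 from rfl]
              field_simp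
              ring
      rw [if_pos h] at p2 ⊢
      linarith
    · have e1 : l + 1 - i = 3 := by omega
      rw [e1]
      have : 2 * z / d ^ 3 * ∑ a ∈ F, ∑ b ∈ B', (C.np 3 a b : ℝ) ≤ 8 * z * s / d := by
        calc 2 * z / d ^ 3 * ∑ a ∈ F, ∑ b ∈ B', (C.np 3 a b : ℝ)
            ≤ 2 * z / d ^ 3 * (4 * s * d ^ (3 - 1)) :=
              mul_le_mul_of_nonneg_left (k2 3 (Or.inr rfl)) (by positivity)
          _ = 8 * z * s / d := by
              rw [show 3 - 1 = 2 from rfl]
              field_simp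
              ring
      rw [if_pos h] at p3 ⊢
      linarith
    · obtain ⟨g, hg⟩ : ∃ g, l + 1 - i = g + 4 := ⟨l + 1 - i - 4, by omega⟩
      rw [hg]
      have : 2 * z / d ^ (g + 4) * ∑ a ∈ F, ∑ b ∈ B', (C.np (g + 4) a b : ℝ) ≤
          16 * z * (t : ℝ) ^ 2 / d ^ 2 := by
        calc 2 * z / d ^ (g + 4) * ∑ a ∈ F, ∑ b ∈ B', (C.np (g + 4) a b : ℝ)
            ≤ 2 * z / d ^ (g + 4) * (8 * (t : ℝ) ^ 2 * d ^ (g + 4 - 2)) :=
              mul_le_mul_of_nonneg_left (k4 (g + 4) (by omega)) (by positivity)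
          _ = 16 * z * (t : ℝ) ^ 2 / d ^ 2 := by
              rw [show g + 4 - 2 = g + 2 from rfl, show g + 4 = (g + 2) + 2 by ring, pow_add d (g + 2) 2]
              field_simp
              ring
      linarith
  · have e1 : z * (30 * s / d + 16 * T * (t : ℝ) ^ 2 / d ^ 2) =
        12 * z * s / d + 2 * (8 * z * s / d) + 0 + T * (16 * z * (t : ℝ) ^ 2 / d ^ 2) +
          2 * (z * s / d) := by ring
    rw [e1]
    have : 0 ≤ z * s / d := by positivity
    linarith

/-- pairs `(i, l)` with `l` fixed second: the mirrored sum -/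
lemma sum_pairs' {T : ℕ} {G : ℕ → ℕ → ℝ} {c1 c2 c4 c : ℝ} (h2 : 0 ≤ c2) (h4 : 0 ≤ c4)
    (hG : ∀ i l, i ≤ l → l < T → G i l ≤ (if l = i then c1 else 0) +
      (if l = i + 1 then c2 else 0) + (if l = i + 2 then c2 else 0) +
      (if l = i + 3 then c2 else 0) + c4)
    (h1 : 0 ≤ c1) (hc : c1 + 3 * c2 + T * c4 ≤ c) :
    (∑ i ∈ range T, ∑ l ∈ range T, if i ≤ l then G i l else 0) ≤ T * c :=
  sum_pairs h2 h2 h4 hG h1 (by linarith)

/-- bound of `∑_a N_g(a, v)` over a small set -/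
lemma np_sup {C : Cl V} {d : ℝ} (hc : Cnt C d) (hd : 0 < d) (g : ℕ) (hg : 1 ≤ g) (a b : V) :
    (C.np g a b : ℝ) / d ^ g ≤ (if g ≤ 3 then 1 / d else 0) + 2 / d ^ 2 := by
  by_cases h3 : g ≤ 3
  · rw [if_pos h3]
    have h1 := hc.n1c g a b hg
    obtain ⟨e, rfl⟩ := Nat.exists_eq_add_of_le' hg
    rw [Nat.add_sub_cancel] at h1
    have h2 : (C.np (e + 1) a b : ℝ) / d ^ (e + 1) ≤ 1 / d := by
      rw [div_le_div_iff₀ (pow_pos hd _) hd, one_mul, pow_succ]
      exact mul_le_mul_of_nonneg_right h1 hd.le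
    have h4 : (0 : ℝ) ≤ 2 / d ^ 2 := by positivity
    linarith
  · rw [if_neg h3, zero_add]
    have h1 := hc.n4 g a b (by omega)
    obtain ⟨e, rfl⟩ : ∃ e, g = e + 2 := ⟨g - 2, by omega⟩
    rw [Nat.add_sub_cancel] at h1
    rw [div_le_div_iff₀ (pow_pos hd _) (pow_pos hd _), pow_add]
    calc (C.np (e + 2) a b : ℝ) * d ^ 2 ≤ 2 * d ^ e * d ^ 2 :=
          mul_le_mul_of_nonneg_right h1 (by positivity)
      _ = 2 * (d ^ e * d ^ 2) := by ring

/-- [S1] -/
lemma sS1 {C : Cl V} {d : ℝ} {T : ℕ} {p z r : ℝ} (hp : Par C d T p z r)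
    (F : Finset V) (t : ℕ) (v : V) (hF : F.card ≤ t + 1) :
    p * ∑ w : C.Wk T, prs T (fun i l => w.hd l v ∧ w.n i ∈ F) ≤ 10 * r * (t + 1) / d := by
  have hd1 := hp.ok.one_le
  have hd : 0 < d := lt_of_lt_of_le one_pos hd1
  have hz := hp.z0
  have hc := wcn V C d hp.ok
  obtain ⟨-, -, hw⟩ := wpc V C d T p z r hp
  have hFr : (F.card : ℝ) ≤ t + 1 := by exact_mod_cast hF
  obtain ⟨Q, hQ⟩ : ∃ Q : C.Wk T → ℕ → ℕ → Prop, Q = fun w i l => w.hd l v ∧ w.n i ∈ F := ⟨_, rfl⟩
  have e0 : (∑ w : C.Wk T, prs T (fun i l => w.hd l v ∧ w.n i ∈ F)) =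
      ∑ w : C.Wk T, prs T (Q w) := by rw [hQ]
  rw [e0, sum_prs C T p Q]
  have hzr : (T : ℝ) * z ≤ r := by rw [← hp.zr]; nlinarith
  have hG : ∀ i l, i ≤ l → l < T → p * ((univ.filter fun w : C.Wk T => Q w i l).card : ℝ) ≤
      2 * z * (t + 1) * ((if l + 1 - i ≤ 3 then 1 / d else 0) + 2 / d ^ 2) := by
    intro i l hil hl
    by_cases hb : ∃ b, C.f b = some v
    · obtain ⟨b, hb⟩ := hb
      have h1 : (univ.filter fun w : C.Wk T => Q w i l) ⊆
          univ.filter fun w : C.Wk T => w.n i ∈ F ∧ w.n (i + (l + 1 - i)) ∈ ({b} : Finset V) := by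
        intro w hw
        have hw' := (Finset.mem_filter.mp hw).2
        rw [hQ] at hw'
        refine Finset.mem_filter.mpr ⟨Finset.mem_univ _, hw'.2, ?_⟩
        rw [show i + (l + 1 - i) = l + 1 by omega, Finset.mem_singleton]
        exact hp.ok.inj _ _ _ hw'.1 hb
      have h2 : ((univ.filter fun w : C.Wk T => Q w i l).card : ℝ) ≤
          ((univ.filter fun w : C.Wk T => w.n i ∈ F ∧
            w.n (i + (l + 1 - i)) ∈ ({b} : Finset V)).card : ℝ) := by
        exact_mod_cast Finset.card_le_card h1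
      refine (mul_le_mul_of_nonneg_left h2 hp.p0.le).trans ?_
      refine (card_FB i (l + 1 - i) F {b} _ (fun w hw => (Finset.mem_filter.mp hw).2) p
        hp.p0.le).trans ?_
      have h3 : ∀ a ∈ F, (∑ b' ∈ ({b} : Finset V),
          p * ((univ.filter fun w : C.Wk T => w.n i = a ∧ w.n (i + (l + 1 - i)) = b').card : ℝ)) ≤
          2 * z * ((if l + 1 - i ≤ 3 then 1 / d else 0) + 2 / d ^ 2) := by
        intro a _
        rw [Finset.sum_singleton]
        refine (hw i (l + 1 - i) a b (by omega)).trans ?_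
        rw [mul_div_assoc]
        exact mul_le_mul_of_nonneg_left (np_sup hc hd _ (by omega) a b) (by positivity)
      refine (Finset.sum_le_sum h3).trans ?_
      rw [Finset.sum_const, nsmul_eq_mul]
      have h4 : (0 : ℝ) ≤ 2 * z * ((if l + 1 - i ≤ 3 then 1 / d else 0) + 2 / d ^ 2) := by
        have : (0 : ℝ) ≤ if l + 1 - i ≤ 3 then 1 / d else 0 := by split_ifs <;> positivity
        positivity
      calc (F.card : ℝ) * (2 * z * ((if l + 1 - i ≤ 3 then 1 / d else 0) + 2 / d ^ 2))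
          ≤ (t + 1) * (2 * z * ((if l + 1 - i ≤ 3 then 1 / d else 0) + 2 / d ^ 2)) :=
            mul_le_mul_of_nonneg_right hFr h4
        _ = _ := by ring
    · have h1 : (univ.filter fun w : C.Wk T => Q w i l) = ∅ := by
        refine Finset.filter_eq_empty_iff.mpr fun w _ hw => hb ?_
        rw [hQ] at hw
        exact ⟨_, hw.1⟩
      rw [h1, Finset.card_empty, Nat.cast_zero, mul_zero]
      have : (0 : ℝ) ≤ if l + 1 - i ≤ 3 then 1 / d else 0 := by split_ifs <;> positivity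
      positivity
  have hmain := sum_pairs' (T := T)
    (G := fun i l => p * ((univ.filter fun w : C.Wk T => Q w i l).card : ℝ))
    (c1 := 2 * z * (t + 1) / d) (c2 := 2 * z * (t + 1) / d)
    (c4 := 2 * z * (t + 1) * (2 / d ^ 2))
    (c := z * (t + 1) / d * (8 + 4 * T / d))
    (by positivity) (by positivity) ?_ (by positivity) ?_
  · refine hmain.trans ?_
    have h5 : 4 * (T : ℝ) / d ≤ 1 := by
      rw [div_le_one hd]
      have := hp.Td
      nlinarith [Nat.cast_nonneg (α := ℝ) T]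
    calc (T : ℝ) * (z * (t + 1) / d * (8 + 4 * T / d))
        ≤ (T : ℝ) * (z * (t + 1) / d * 10) := by gcongr; linarith
      _ = (T * z) * (10 * (t + 1) / d) := by ring
      _ ≤ r * (10 * (t + 1) / d) := mul_le_mul_of_nonneg_right hzr (by positivity)
      _ = 10 * r * (t + 1) / d := by ring
  · intro i l hil hl
    refine (hG i l hil hl).trans ?_
    rw [mul_add]
    refine add_le_add ?_ le_rfl
    have hx : 0 ≤ 2 * z * ((t : ℝ) + 1) / d := by positivity
    have p1 : (0 : ℝ) ≤ if l = i then 2 * z * ((t : ℝ) + 1) / d else 0 := by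
      split_ifs; exacts [hx, le_rfl]
    have p2 : (0 : ℝ) ≤ if l = i + 1 then 2 * z * ((t : ℝ) + 1) / d else 0 := by
      split_ifs; exacts [hx, le_rfl]
    have p3 : (0 : ℝ) ≤ if l = i + 2 then 2 * z * ((t : ℝ) + 1) / d else 0 := by
      split_ifs; exacts [hx, le_rfl]
    have p4 : (0 : ℝ) ≤ if l = i + 3 then 2 * z * ((t : ℝ) + 1) / d else 0 := by
      split_ifs; exacts [hx, le_rfl]
    by_cases h : l + 1 - i ≤ 3
    · rw [if_pos h, mul_one_div]
      rcases (show l = i ∨ l = i + 1 ∨ l = i + 2 by omega) with h' | h' | h'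
      · rw [if_pos h'] at p1 ⊢; linarith
      · rw [if_pos h'] at p2 ⊢; linarith
      · rw [if_pos h'] at p3 ⊢; linarith
    · rw [if_neg h, mul_zero]
      linarith
  · have e1 : z * ((t : ℝ) + 1) / d * (8 + 4 * T / d) =
        2 * z * (t + 1) / d + 3 * (2 * z * (t + 1) / d) + T * (2 * z * (t + 1) * (2 / d ^ 2)) := by
      field_simp
      ring
    rw [e1]

/-- [S0] -/
lemma sS0 {C : Cl V} {d : ℝ} {T : ℕ} {p z r : ℝ} (hp : Par C d T p z r)
    (F : V → Finset V) (t : ℕ) (v : V) (hF : ∀ y, (F y).card ≤ t + 1)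
    (hF' : (univ.filter fun y => v ∈ F y).card ≤ t + 1) :
    p * ∑ w : C.Wk T, prs T (fun i l => w.n l = v ∧ ∃ y, w.hd l y ∧ w.n i ∈ F y) ≤
        10 * r * (t + 1) / d := by
  have hd1 := hp.ok.one_le
  have hd : 0 < d := lt_of_lt_of_le one_pos hd1
  have hz := hp.z0
  have hp0 := hp.p0
  have hc := wcn V C d hp.ok
  obtain ⟨-, -, hw⟩ := wpc V C d T p z r hp
  obtain ⟨Q, hQ⟩ : ∃ Q : C.Wk T → ℕ → ℕ → Prop,
    Q = fun w i l => w.n l = v ∧ ∃ y, w.hd l y ∧ w.n i ∈ F y := ⟨_, rfl⟩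
  have e0 : (∑ w : C.Wk T, prs T (fun i l => w.n l = v ∧ ∃ y, w.hd l y ∧ w.n i ∈ F y)) =
      ∑ w : C.Wk T, prs T (Q w) := by rw [hQ]
  rw [e0, sum_prs C T p Q]
  have hzr : (T : ℝ) * z ≤ r := by rw [← hp.zr]; nlinarith
  -- the diagonal
  have hdiag : ∀ l, l < T → p * ((univ.filter fun w : C.Wk T => Q w l l).card : ℝ) ≤
      2 * z * (t + 1) / d := by
    intro l hl
    obtain ⟨B, hB⟩ : ∃ B, B = univ.filter (fun b => ∃ y, C.f b = some y ∧ v ∈ F y) := ⟨_, rfl⟩
    have hBc : B.card ≤ t + 1 := by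
      refine le_trans ?_ hF'
      have h1 : ∀ b ∈ B, ∃ y, C.f b = some y ∧ v ∈ F y := by
        intro b hb
        rw [hB] at hb
        exact (Finset.mem_filter.mp hb).2
      refine Finset.card_le_card_of_injOn (fun b => if h : b ∈ B then (h1 b h).choose else b) ?_ ?_
      · intro b hb
        have hb' : b ∈ B := Finset.mem_coe.mp hb
        show (if h : b ∈ B then (h1 b h).choose else b) ∈ _
        rw [dif_pos hb']
        exact Finset.mem_coe.mpr (Finset.mem_filter.mpr ⟨Finset.mem_univ _,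
          (h1 b hb').choose_spec.2⟩)
      · intro b hb b' hb' hbb
        have hb1 : b ∈ B := Finset.mem_coe.mp hb
        have hb2 : b' ∈ B := Finset.mem_coe.mp hb'
        have hbb' : (if h : b ∈ B then (h1 b h).choose else b) =
          (if h : b' ∈ B then (h1 b' h).choose else b') := hbb
        rw [dif_pos hb1, dif_pos hb2] at hbb'
        have e1 := (h1 b hb1).choose_spec.1
        have e2 := (h1 b' hb2).choose_spec.1
        rw [hbb'] at e1
        exact hp.ok.inj _ _ _ e1 e2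
    have hBr : (B.card : ℝ) ≤ t + 1 := by exact_mod_cast hBc
    have h1 : (univ.filter fun w : C.Wk T => Q w l l) ⊆
        univ.filter fun w : C.Wk T => w.n l ∈ ({v} : Finset V) ∧ w.n (l + 1) ∈ B := by
      intro w hw
      have hw' := (Finset.mem_filter.mp hw).2
      rw [hQ] at hw'
      obtain ⟨a1, y, a2, a3⟩ := hw'
      refine Finset.mem_filter.mpr ⟨Finset.mem_univ _, Finset.mem_singleton.mpr a1, ?_⟩
      rw [hB]
      exact Finset.mem_filter.mpr ⟨Finset.mem_univ _, y, a2, by rw [← a1]; exact a3⟩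
    have h2 : ((univ.filter fun w : C.Wk T => Q w l l).card : ℝ) ≤
        ((univ.filter fun w : C.Wk T => w.n l ∈ ({v} : Finset V) ∧ w.n (l + 1) ∈ B).card : ℝ) := by
      exact_mod_cast Finset.card_le_card h1
    refine (mul_le_mul_of_nonneg_left h2 hp0.le).trans ?_
    refine (card_FB l 1 {v} B _ (fun w hw => (Finset.mem_filter.mp hw).2) p hp0.le).trans ?_
    rw [Finset.sum_singleton]
    have h3 : ∀ b ∈ B,
        p * ((univ.filter fun w : C.Wk T => w.n l = v ∧ w.n (l + 1) = b).card : ℝ) ≤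
          2 * z / d := by
      intro b _
      refine (hw l 1 v b (by omega)).trans ?_
      have h4 := hc.n1c 1 v b le_rfl
      rw [Nat.sub_self, pow_zero] at h4
      rw [pow_one]
      refine div_le_div_of_nonneg_right ?_ hd.le
      calc 2 * z * (C.np 1 v b : ℝ) ≤ 2 * z * 1 := mul_le_mul_of_nonneg_left h4 (by positivity)
        _ = 2 * z := mul_one _
    refine (Finset.sum_le_sum h3).trans ?_
    rw [Finset.sum_const, nsmul_eq_mul]
    calc (B.card : ℝ) * (2 * z / d) ≤ (t + 1) * (2 * z / d) :=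
          mul_le_mul_of_nonneg_right hBr (by positivity)
      _ = 2 * z * (t + 1) / d := by ring
  -- off the diagonal
  have hoff : ∀ i l, i < l → l < T → p * ((univ.filter fun w : C.Wk T => Q w i l).card : ℝ) ≤
      2 * z * (t + 1) * ((if l - i ≤ 3 then 1 / d else 0) + 2 / d ^ 2) := by
    intro i l hil hl
    obtain ⟨g, rfl⟩ : ∃ g, l = i + g := ⟨l - i, by omega⟩
    rw [show i + g - i = g by omega]
    obtain ⟨D, hD⟩ : ∃ D, D = univ.filter (fun b => C.gam v b) := ⟨_, rfl⟩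
    have hDr : (D.card : ℝ) ≤ d := by rw [hD]; exact hp.ok.out v
    have h1 : (univ.filter fun w : C.Wk T => Q w i (i + g)) ⊆
        D.biUnion fun b => (univ.filter fun a => ∃ y, C.f b = some y ∧ a ∈ F y).biUnion fun a =>
          univ.filter fun w : C.Wk T => w.n i = a ∧ w.n (i + g) = v ∧ w.n (i + g + 1) = b := by
      intro w hw
      have hw' := (Finset.mem_filter.mp hw).2
      rw [hQ] at hw'
      obtain ⟨a1, y, a2, a3⟩ := hw'
      refine Finset.mem_biUnion.mpr ⟨w.n (i + g + 1), ?_, Finset.mem_biUnion.mpr ⟨w.n i, ?_, ?_⟩⟩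
      · rw [hD]
        refine Finset.mem_filter.mpr ⟨Finset.mem_univ _, ?_⟩
        have := w.2.step (i + g) hl
        rw [← a1]
        exact this
      · exact Finset.mem_filter.mpr ⟨Finset.mem_univ _, y, a2, a3⟩
      · exact Finset.mem_filter.mpr ⟨Finset.mem_univ _, rfl, a1, rfl⟩
    have h2 : (univ.filter fun w : C.Wk T => Q w i (i + g)).card ≤ ∑ b ∈ D,
        ∑ a ∈ univ.filter (fun a => ∃ y, C.f b = some y ∧ a ∈ F y),
          (univ.filter fun w : C.Wk T => w.n i = a ∧ w.n (i + g) = v ∧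
            w.n (i + g + 1) = b).card :=
      (Finset.card_le_card h1).trans (Finset.card_biUnion_le.trans
        (Finset.sum_le_sum fun b _ => Finset.card_biUnion_le))
    have h2r : ((univ.filter fun w : C.Wk T => Q w i (i + g)).card : ℝ) ≤ ∑ b ∈ D,
        ∑ a ∈ univ.filter (fun a => ∃ y, C.f b = some y ∧ a ∈ F y),
          ((univ.filter fun w : C.Wk T => w.n i = a ∧ w.n (i + g) = v ∧
            w.n (i + g + 1) = b).card : ℝ) := by exact_mod_cast h2
    have hcell : ∀ b a : V, p * ((univ.filter fun w : C.Wk T => w.n i = a ∧ w.n (i + g) = v ∧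
        w.n (i + g + 1) = b).card : ℝ) ≤
        2 * z / d * ((if g ≤ 3 then 1 / d else 0) + 2 / d ^ 2) := by
      intro b a
      have h3 := card_three (e := 1) hp.ok (T := T) (i := i) (g := g) (by omega) a v b
        (univ.filter fun w : C.Wk T => w.n i = a ∧ w.n (i + g) = v ∧ w.n (i + g + 1) = b)
        (fun w hw => (Finset.mem_filter.mp hw).2)
      have h4 : (C.np 1 v b : ℝ) ≤ 1 := by
        have := hc.n1c 1 v b le_rfl
        rw [Nat.sub_self, pow_zero] at this
        exact this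
      have h5 : d ^ i * d ^ (T - i - g - 1) * d ^ g * d = d ^ T := by
        rw [← pow_add, ← pow_add, ← pow_succ]
        congr 1
        omega
      calc p * ((univ.filter fun w : C.Wk T => w.n i = a ∧ w.n (i + g) = v ∧
            w.n (i + g + 1) = b).card : ℝ)
          ≤ p * (d ^ i * (C.np g a v * C.np 1 v b * d ^ (T - i - g - 1))) :=
            mul_le_mul_of_nonneg_left h3 hp0.le
        _ ≤ p * (d ^ i * (C.np g a v * 1 * d ^ (T - i - g - 1))) := by gcongr
        _ = (p * d ^ T) / d * (C.np g a v / d ^ g) := by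
            rw [← h5]
            field_simp
        _ ≤ (2 * z) / d * (C.np g a v / d ^ g) := by
            have := hp.pd
            gcongr
        _ ≤ 2 * z / d * ((if g ≤ 3 then 1 / d else 0) + 2 / d ^ 2) :=
            mul_le_mul_of_nonneg_left (np_sup hc hd g (by omega) a v) (by positivity)
    have hq0 : (0 : ℝ) ≤ 2 * z / d * ((if g ≤ 3 then 1 / d else 0) + 2 / d ^ 2) := by
      have : (0 : ℝ) ≤ if g ≤ 3 then 1 / d else 0 := by split_ifs <;> positivity
      positivity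
    have hFc : ∀ b, ((univ.filter fun a => ∃ y, C.f b = some y ∧ a ∈ F y).card : ℝ) ≤ t + 1 := by
      intro b
      have : (univ.filter fun a => ∃ y, C.f b = some y ∧ a ∈ F y).card ≤ t + 1 := by
        rcases hfb : C.f b with _ | y
        · have : (univ.filter fun a => ∃ y, (none : Option V) = some y ∧ a ∈ F y) = ∅ := by
            refine Finset.filter_eq_empty_iff.mpr fun a _ ha => ?_
            obtain ⟨y, hy, -⟩ := ha
            cases hy
          rw [this]
          simp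
        · refine le_trans (Finset.card_le_card ?_) (hF y)
          intro a ha
          obtain ⟨-, y', hy', ha'⟩ := Finset.mem_filter.mp ha
          obtain rfl : y = y' := Option.some.inj hy'
          exact ha'
      exact_mod_cast this
    calc p * ((univ.filter fun w : C.Wk T => Q w i (i + g)).card : ℝ)
        ≤ p * ∑ b ∈ D, ∑ a ∈ univ.filter (fun a => ∃ y, C.f b = some y ∧ a ∈ F y),
          ((univ.filter fun w : C.Wk T => w.n i = a ∧ w.n (i + g) = v ∧
            w.n (i + g + 1) = b).card : ℝ) := mul_le_mul_of_nonneg_left h2r hp0.le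
      _ = ∑ b ∈ D, ∑ a ∈ univ.filter (fun a => ∃ y, C.f b = some y ∧ a ∈ F y),
          p * ((univ.filter fun w : C.Wk T => w.n i = a ∧ w.n (i + g) = v ∧
            w.n (i + g + 1) = b).card : ℝ) := by
          rw [Finset.mul_sum]
          exact Finset.sum_congr rfl fun b _ => by rw [Finset.mul_sum]
      _ ≤ ∑ b ∈ D, ∑ a ∈ univ.filter (fun a => ∃ y, C.f b = some y ∧ a ∈ F y),
          2 * z / d * ((if g ≤ 3 then 1 / d else 0) + 2 / d ^ 2) :=
          Finset.sum_le_sum fun b _ => Finset.sum_le_sum fun a _ => hcell b a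
      _ ≤ ∑ b ∈ D, (t + 1) * (2 * z / d * ((if g ≤ 3 then 1 / d else 0) + 2 / d ^ 2)) := by
          refine Finset.sum_le_sum fun b _ => ?_
          rw [Finset.sum_const, nsmul_eq_mul]
          exact mul_le_mul_of_nonneg_right (hFc b) hq0
      _ = D.card * ((t + 1) * (2 * z / d * ((if g ≤ 3 then 1 / d else 0) + 2 / d ^ 2))) := by
          rw [Finset.sum_const, nsmul_eq_mul]
      _ ≤ d * ((t + 1) * (2 * z / d * ((if g ≤ 3 then 1 / d else 0) + 2 / d ^ 2))) :=
          mul_le_mul_of_nonneg_right hDr (by positivity)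
      _ = 2 * z * (t + 1) * ((if g ≤ 3 then 1 / d else 0) + 2 / d ^ 2) := by
          field_simp
  have hmain := sum_pairs' (T := T)
    (G := fun i l => p * ((univ.filter fun w : C.Wk T => Q w i l).card : ℝ))
    (c1 := 2 * z * (t + 1) / d) (c2 := 2 * z * (t + 1) / d)
    (c4 := 2 * z * (t + 1) * (2 / d ^ 2))
    (c := z * (t + 1) / d * (8 + 4 * T / d))
    (by positivity) (by positivity) ?_ (by positivity) ?_
  · refine hmain.trans ?_
    have h5 : 4 * (T : ℝ) / d ≤ 1 := by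
      rw [div_le_one hd]
      have := hp.Td
      nlinarith [Nat.cast_nonneg (α := ℝ) T]
    calc (T : ℝ) * (z * (t + 1) / d * (8 + 4 * T / d))
        ≤ (T : ℝ) * (z * (t + 1) / d * 10) := by gcongr; linarith
      _ = (T * z) * (10 * (t + 1) / d) := by ring
      _ ≤ r * (10 * (t + 1) / d) := mul_le_mul_of_nonneg_right hzr (by positivity)
      _ = 10 * r * (t + 1) / d := by ring
  · intro i l hil hl
    have hx : 0 ≤ 2 * z * ((t : ℝ) + 1) / d := by positivity
    have hy : 0 ≤ 2 * z * ((t : ℝ) + 1) * (2 / d ^ 2) := by positivity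
    have p1 : (0 : ℝ) ≤ if l = i then 2 * z * ((t : ℝ) + 1) / d else 0 := by
      split_ifs; exacts [hx, le_rfl]
    have p2 : (0 : ℝ) ≤ if l = i + 1 then 2 * z * ((t : ℝ) + 1) / d else 0 := by
      split_ifs; exacts [hx, le_rfl]
    have p3 : (0 : ℝ) ≤ if l = i + 2 then 2 * z * ((t : ℝ) + 1) / d else 0 := by
      split_ifs; exacts [hx, le_rfl]
    have p4 : (0 : ℝ) ≤ if l = i + 3 then 2 * z * ((t : ℝ) + 1) / d else 0 := by
      split_ifs; exacts [hx, le_rfl]
    rcases Nat.eq_or_lt_of_le hil with h | h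
    · subst h
      refine (hdiag i hl).trans ?_
      rw [if_pos rfl] at p1 ⊢
      linarith
    · refine (hoff i l h hl).trans ?_
      rw [mul_add]
      refine add_le_add ?_ le_rfl
      by_cases h3 : l - i ≤ 3
      · rw [if_pos h3, mul_one_div]
        rcases (show l = i + 1 ∨ l = i + 2 ∨ l = i + 3 by omega) with h' | h' | h'
        · rw [if_pos h'] at p2 ⊢; linarith
        · rw [if_pos h'] at p3 ⊢; linarith
        · rw [if_pos h'] at p4 ⊢; linarith
      · rw [if_neg h3, mul_zero]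
        linarith
  · have e1 : z * ((t : ℝ) + 1) / d * (8 + 4 * T / d) =
        2 * z * (t + 1) / d + 3 * (2 * z * (t + 1) / d) + T * (2 * z * (t + 1) * (2 / d ^ 2)) := by
      field_simp
      ring
    rw [e1]

theorem sss (kst : KSTStmt) : SSSStmt := by
  intro V _ C d T p z r hp
  exact ⟨fun F B t ht hF hB => sS kst hp F B t ht hF hB,
    fun F t v hF hF' => sS0 hp F t v hF hF', fun F t v hF => sS1 hp F t v hF⟩

end

end Pool.Agent.C4K.H48
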