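import Pool.Agent.C4K.StLin
import Pool.Agent.Helper48_C4K.Sss

/-!
# LI3: the duplicate links in the linear statistic
-/

set_option autoImplicit false

namespace Pool.Agent.C4K.H48

open Finset Cl LLLA
open scoped Classical

noncomputable section

/-! ### indicators -/

def ii (P : Prop) : ℝ := if P then 1 else 0

lemma ii_of {P : Prop} (h : P) : ii P = 1 := if_pos h
lemma ii_not {P : Prop} (h : ¬ P) : ii P = 0 := if_neg h
lemma ii_nonneg (P : Prop) : 0 ≤ ii P := by unfold ii; split_ifs <;> norm_num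
lemma ii_le_one (P : Prop) : ii P ≤ 1 := by unfold ii; split_ifs <;> norm_num
lemma ii_mono {P Q : Prop} (h : P → Q) : ii P ≤ ii Q := by
  by_cases hP : P
  · rw [ii_of hP, ii_of (h hP)]
  · rw [ii_not hP]; exact ii_nonneg Q
lemma ii_and (P Q : Prop) : ii (P ∧ Q) = ii P * ii Q := by
  by_cases hP : P
  · by_cases hQ : Q
    · rw [ii_of ⟨hP, hQ⟩, ii_of hP, ii_of hQ, one_mul]
    · rw [ii_not (fun h => hQ h.2), ii_not hQ, mul_zero]
  · rw [ii_not (fun h => hP h.1), ii_not hP, zero_mul]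
lemma ii_le_sum {ι : Type*} (s : Finset ι) (P : Prop) (Q : ι → Prop)
    (h : P → ∃ i ∈ s, Q i) : ii P ≤ ∑ i ∈ s, ii (Q i) := by
  by_cases hP : P
  · rw [ii_of hP]
    obtain ⟨i, hi, hQ⟩ := h hP
    rw [← ii_of hQ]
    exact Finset.single_le_sum (f := fun i => ii (Q i)) (fun j _ => ii_nonneg _) hi
  · rw [ii_not hP]
    exact Finset.sum_nonneg fun i _ => ii_nonneg _
lemma sum_ii {ι : Type*} (s : Finset ι) (Q : ι → Prop) :
    ∑ i ∈ s, ii (Q i) = ((s.filter Q).card : ℝ) := by
  rw [Finset.card_filter]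
  push_cast
  rfl

/-! ### links of walks -/

variable {V : Type} [Fintype V]

/-- `(x, y)` is a link of the walk `w` -/
def lo {C : Cl V} {T : ℕ} (w : C.Wk T) (x y : V) : Prop := ∃ j, j < T ∧ w.n j = x ∧ w.hd j y

/-- link in the direction `b` -/
def lw {C : Cl V} {T : ℕ} (b : Bool) (w : C.Wk T) (v y : V) : Prop :=
  (b = true ∧ lo w v y) ∨ (b = false ∧ lo w y v)

/-- valid link in the direction `b` -/
def kl {C : Cl V} {T : ℕ} (b : Bool) (om : C.Wk T → Bool) (v y : V) : Prop :=
  (b = true ∧ lnk om v y) ∨ (b = false ∧ lnk om y v)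

lemma kl_true {C : Cl V} {T : ℕ} (om : C.Wk T → Bool) (v y : V) : kl true om v y ↔ lnk om v y := by
  unfold kl; simp

lemma kl_false {C : Cl V} {T : ℕ} (om : C.Wk T → Bool) (v y : V) :
    kl false om v y ↔ lnk om y v := by
  unfold kl; simp

lemma kl_unique {C : Cl V} {T : ℕ} (hP : Pim C T) {b : Bool} {om : C.Wk T → Bool} {v y y' : V}
    (h : kl b om v y) (h' : kl b om v y') : y = y' := by
  rcases h with ⟨hb, h⟩ | ⟨hb, h⟩
  · rcases h' with ⟨-, h'⟩ | ⟨hb', -⟩
    · have e1 := (hP.iff om v y).mpr (Or.inr h)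
      have e2 := (hP.iff om v y').mpr (Or.inr h')
      rw [e1] at e2
      exact Option.some.inj e2
    · rw [hb] at hb'; exact absurd hb' (by decide)
  · rcases h' with ⟨hb', -⟩ | ⟨-, h'⟩
    · rw [hb] at hb'; exact absurd hb' (by decide)
    · have e1 := (hP.iff om y v).mpr (Or.inr h)
      have e2 := (hP.iff om y' v).mpr (Or.inr h')
      exact hP.inj om y y' v e1 e2

lemma kl_walk {C : Cl V} {T : ℕ} {b : Bool} {om : C.Wk T → Bool} {v y : V}
    (h : kl b om v y) : ∃ w : C.Wk T, om w = true ∧ lw b w v y := by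
  rcases h with ⟨hb, w, hw, i, hi, h1, h2, -, -⟩ | ⟨hb, w, hw, i, hi, h1, h2, -, -⟩
  · exact ⟨w, hw, Or.inl ⟨hb, i, hi, h1, h2⟩⟩
  · exact ⟨w, hw, Or.inr ⟨hb, i, hi, h1, h2⟩⟩

/-- number of walks with a given link -/
lemma lo_count {C : Cl V} {d : ℝ} {T : ℕ} {p z r : ℝ} (hp : Par C d T p z r) (x y : V) :
    p * ∑ w : C.Wk T, ii (lo w x y) ≤ 2 * r / d := by
  have hd : 0 < d := lt_of_lt_of_le one_pos hp.ok.one_le
  have hz := hp.z0
  have hp0 := hp.p0
  have hc := wcn V C d hp.ok
  obtain ⟨-, -, hw⟩ := wpc V C d T p z r hp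
  rw [sum_ii]
  have hr0 : 0 ≤ r := by rw [← hp.zr]; positivity
  by_cases ha : ∃ a, C.f a = some y
  · obtain ⟨a, ha⟩ := ha
    have h1 : (univ.filter fun w : C.Wk T => lo w x y) ⊆
        (range T).biUnion fun j => univ.filter fun w : C.Wk T => w.n j = x ∧ w.n (j + 1) = a := by
      intro w hw
      obtain ⟨-, j, hj, h2, h3⟩ := Finset.mem_filter.mp hw
      refine Finset.mem_biUnion.mpr ⟨j, Finset.mem_range.mpr hj, Finset.mem_filter.mpr
        ⟨Finset.mem_univ _, h2, hp.ok.inj _ _ _ h3 ha⟩⟩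
    have h2 : ((univ.filter fun w : C.Wk T => lo w x y).card : ℝ) ≤
        ∑ j ∈ range T, ((univ.filter fun w : C.Wk T => w.n j = x ∧ w.n (j + 1) = a).card : ℝ) := by
      exact_mod_cast (Finset.card_le_card h1).trans Finset.card_biUnion_le
    calc p * ((univ.filter fun w : C.Wk T => lo w x y).card : ℝ)
        ≤ p * ∑ j ∈ range T,
          ((univ.filter fun w : C.Wk T => w.n j = x ∧ w.n (j + 1) = a).card : ℝ) :=
          mul_le_mul_of_nonneg_left h2 hp0.le
      _ = ∑ j ∈ range T, p *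
          ((univ.filter fun w : C.Wk T => w.n j = x ∧ w.n (j + 1) = a).card : ℝ) := by
          rw [Finset.mul_sum]
      _ ≤ ∑ j ∈ range T, 2 * z / d := by
          refine Finset.sum_le_sum fun j hj => ?_
          refine (hw j 1 x a (by have := Finset.mem_range.mp hj; omega)).trans ?_
          have h4 := hc.n1c 1 x a le_rfl
          rw [Nat.sub_self, pow_zero] at h4
          rw [pow_one]
          refine div_le_div_of_nonneg_right ?_ hd.le
          calc 2 * z * (C.np 1 x a : ℝ) ≤ 2 * z * 1 := mul_le_mul_of_nonneg_left h4 (by positivity)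
            _ = 2 * z := mul_one _
      _ = T * (2 * z / d) := by rw [Finset.sum_const, Finset.card_range, nsmul_eq_mul]
      _ = 2 * (T * z) / d := by ring
      _ ≤ 2 * r / d := by
          have : (T : ℝ) * z ≤ r := by rw [← hp.zr]; nlinarith
          gcongr
  · have h1 : (univ.filter fun w : C.Wk T => lo w x y) = ∅ := by
      refine Finset.filter_eq_empty_iff.mpr fun w _ hw => ha ?_
      obtain ⟨j, _, _, h3⟩ := hw
      exact ⟨_, h3⟩
    rw [h1, Finset.card_empty, Nat.cast_zero, mul_zero]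
    positivity

lemma lw_count {C : Cl V} {d : ℝ} {T : ℕ} {p z r : ℝ} (hp : Par C d T p z r) (b : Bool) (v y : V) :
    p * ∑ w : C.Wk T, ii (lw b w v y) ≤ 2 * r / d := by
  cases b with
  | true =>
    have h : ∀ w : C.Wk T, ii (lw true w v y) = ii (lo w v y) := by
      intro w
      congr 1
      unfold lw
      simp
    simp only [h]
    exact lo_count hp v y
  | false =>
    have h : ∀ w : C.Wk T, ii (lw false w v y) = ii (lo w y v) := by
      intro w
      congr 1
      unfold lw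
      simp
    simp only [h]
    exact lo_count hp y v

/-- a walk has at most `T` links -/
lemma lw_card {C : Cl V} {T : ℕ} (b : Bool) (w : C.Wk T) :
    (∑ v : V, ∑ y : V, ii (lw b w v y)) ≤ T := by
  have h1 : (∑ v : V, ∑ y : V, ii (lw b w v y)) =
      (((univ : Finset (V × V)).filter fun x => lw b w x.1 x.2).card : ℝ) := by
    rw [← sum_ii, Fintype.sum_prod_type]
  rw [h1]
  have h2 : ((univ : Finset (V × V)).filter fun x => lw b w x.1 x.2) ⊆
      (range T).image fun j => if b = true then (w.n j, (C.f (w.n (j + 1))).getD (w.n 0)) else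
        ((C.f (w.n (j + 1))).getD (w.n 0), w.n j) := by
    intro x hx
    obtain ⟨-, hx⟩ := Finset.mem_filter.mp hx
    rcases hx with ⟨hb, j, hj, h3, h4⟩ | ⟨hb, j, hj, h3, h4⟩
    · refine Finset.mem_image.mpr ⟨j, Finset.mem_range.mpr hj, ?_⟩
      rw [if_pos hb]
      have h5 : C.f (w.n (j + 1)) = some x.2 := h4
      rw [h5]
      exact Prod.ext h3 rfl
    · refine Finset.mem_image.mpr ⟨j, Finset.mem_range.mpr hj, ?_⟩
      rw [if_neg (by rw [hb]; decide)]
      have h5 : C.f (w.n (j + 1)) = some x.1 := h4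
      rw [h5]
      exact Prod.ext rfl h3
  have h3 := (Finset.card_le_card h2).trans Finset.card_image_le
  rw [Finset.card_range] at h3
  exact_mod_cast h3

/-! ### Chernoff bound for sums over the walks of several classes -/

lemma qq_prob {W : Type} {p : ℝ} (h0 : 0 ≤ p) (h1 : p ≤ 1) :
    IsProb (W := W) (α := fun _ => Bool) (qq p) := by
  refine ⟨fun w a => ?_, fun w => ?_⟩
  · unfold qq
    cases a
    · simp; exact h1
    · simpa using h0
  · unfold qq
    simp

lemma walk_chern {n : ℕ} (C : Fin n → Cl V) (T : ℕ) {p : ℝ} (h0 : 0 ≤ p) (h1 : p ≤ 1)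
    (A : Finset (Fin n)) (Q : ∀ e, (C e).Wk T → ℝ) {wq X : ℝ} (hw : 0 < wq)
    (hQ : ∀ e w, 0 ≤ Q e w ∧ Q e w ≤ wq)
    (hX : 7 * (∑ e ∈ univ \ A, ∑ w, p * Q e w) ≤ X) :
    PC C T p {η | X ≤ ∑ e ∈ univ \ A, ∑ w, Q e w * ii (η e w = true)} ≤ Real.exp (-(X / wq)) := by
  have hq : ∀ c : Fin n, IsProb (W := (C c).Wk T) (α := fun _ => Bool) (qq p) := fun c =>
    qq_prob h0 h1
  have hfl := flat_prob (K := fun c => (C c).Wk T) (β := fun _ : Fin n => Bool)
    (q := fun _ => qq p) hq
  unfold PC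
  rw [← Pr_flat (ι := Fin n) (K := fun c => (C c).Wk T) (β := fun _ : Fin n => Bool)]
  have hI : IndSum (W := Σ c, (C c).Wk T) (α := fun _ => Bool)
      (flat (K := fun c => (C c).Wk T) (β := fun _ : Fin n => Bool) fun _ => qq p)
      ((univ \ A).sigma fun c => (univ : Finset ((C c).Wk T))) (fun x => {x})
      (fun x om => Q x.1 x.2 / wq * ii (om x = true)) := by
    refine ⟨hfl, ?_, ?_, ?_, ?_⟩
    · intro i _ j _ hij
      rw [Finset.disjoint_singleton]
      exact hij
    · intro i _ om et h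
      have := h i (Finset.mem_singleton_self i)
      simp only [this]
    · intro i _ om
      exact mul_nonneg (div_nonneg (hQ i.1 i.2).1 hw.le) (ii_nonneg _)
    · intro i _ om
      have e1 : Q i.1 i.2 / wq ≤ 1 := by rw [div_le_one hw]; exact (hQ i.1 i.2).2
      calc Q i.1 i.2 / wq * ii (om i = true) ≤ 1 * 1 :=
            mul_le_mul e1 (ii_le_one _) (ii_nonneg _) (by norm_num)
        _ = 1 := one_mul 1
  have hEx : ∀ x : (Σ c, (C c).Wk T), Ex (W := Σ c, (C c).Wk T) (α := fun _ => Bool)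
      (flat (K := fun c => (C c).Wk T) (β := fun _ : Fin n => Bool) fun _ => qq p)
      (fun om => Q x.1 x.2 / wq * ii (om x = true)) = Q x.1 x.2 / wq * p := by
    intro x
    rw [Ex_const_mul]
    congr 1
    have e2 := Ex_coord (W := Σ c, (C c).Wk T) (α := fun _ => Bool) hfl x true
    have e3 : (fun om : (∀ _ : (Σ c, (C c).Wk T), Bool) => ii (om x = true)) =
        fun om => if om x = true then (1 : ℝ) else 0 := by
      funext om
      unfold ii
      by_cases h : om x = true
      · rw [if_pos h, if_pos h]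
      · rw [if_neg h, if_neg h]
    rw [e3]
    refine e2.trans ?_
    show qq p x.2 true = p
    unfold qq
    simp
  have hmean : 7 * ∑ x ∈ (univ \ A).sigma (fun c => (univ : Finset ((C c).Wk T))),
      Ex (W := Σ c, (C c).Wk T) (α := fun _ => Bool)
      (flat (K := fun c => (C c).Wk T) (β := fun _ : Fin n => Bool) fun _ => qq p)
      (fun om => Q x.1 x.2 / wq * ii (om x = true)) ≤ X / wq := by
    simp only [hEx]
    rw [Finset.sum_sigma]
    rw [le_div_iff₀ hw]
    refine le_trans (le_of_eq ?_) hX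
    rw [mul_assoc, Finset.sum_mul]
    congr 1
    refine Finset.sum_congr rfl fun e _ => ?_
    rw [Finset.sum_mul]
    refine Finset.sum_congr rfl fun w _ => ?_
    field_simp
  refine le_trans (Pr_mono hfl ?_) (hI.chern_far hmean)
  intro om hom
  have h2 : X ≤ ∑ e ∈ univ \ A, ∑ w, Q e w * ii (om ⟨e, w⟩ = true) := hom
  show X / wq ≤ ∑ x ∈ (univ \ A).sigma (fun c => (univ : Finset ((C c).Wk T))),
    Q x.1 x.2 / wq * ii (om x = true)
  rw [Finset.sum_sigma, div_le_iff₀ hw, Finset.sum_mul]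
  refine h2.trans (le_of_eq ?_)
  refine Finset.sum_congr rfl fun e _ => ?_
  rw [Finset.sum_mul]
  refine Finset.sum_congr rfl fun w _ => ?_
  field_simp

/-! ### one bit, one direction -/

/-- the duplicate links with a class which differs in the bit `i` -/
def Sb {n : ℕ} {C : Fin n → Cl V} {T : ℕ} (a : Fin n → V → ℝ) (b : Bool) (i : ℕ)
    (cfg : Cf C T) : ℝ :=
  ∑ c' : Fin n, ∑ v, a c' v * ii (∃ (c'' : Fin n) (y : V),
    Nat.testBit c'' i ≠ Nat.testBit c' i ∧ kl b (cfg c') v y ∧ kl b (cfg c'') v y)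

lemma dup_le {n : ℕ} {C : Fin n → Cl V} {T : ℕ} (a : Fin n → V → ℝ) (ha : ∀ c v, 0 ≤ a c v)
    {N2 : ℕ} (hN : n ≤ 2 ^ N2) (cfg : Cf C T) :
    (∑ c', ∑ v, a c' v * ii (dup cfg c' v)) ≤
      ∑ b : Bool, ∑ i ∈ range N2, Sb a b i cfg := by
  have hbit : ∀ c c' : Fin n, c ≠ c' → ∃ i ∈ range N2,
      Nat.testBit c i ≠ Nat.testBit c' i := by
    intro c c' hne
    by_contra hcon
    push Not at hcon
    apply hne
    apply Fin.ext
    apply Nat.eq_of_testBit_eq
    intro i
    by_cases hi : i < N2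
    · exact hcon i (Finset.mem_range.mpr hi)
    · have h1 : (c : ℕ) < 2 ^ i := lt_of_lt_of_le (lt_of_lt_of_le c.2 hN)
        (Nat.pow_le_pow_right (by norm_num) (by omega))
      have h2 : (c' : ℕ) < 2 ^ i := lt_of_lt_of_le (lt_of_lt_of_le c'.2 hN)
        (Nat.pow_le_pow_right (by norm_num) (by omega))
      rw [Nat.testBit_eq_false_of_lt h1, Nat.testBit_eq_false_of_lt h2]
  have hkey : ∀ c' v, ii (dup cfg c' v) ≤ ∑ b : Bool, ∑ i ∈ range N2,
      ii (∃ (c'' : Fin n) (y : V),
        Nat.testBit c'' i ≠ Nat.testBit c' i ∧ kl b (cfg c') v y ∧ kl b (cfg c'') v y) := by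
    intro c' v
    rw [← Finset.sum_product']
    refine ii_le_sum _ _ (fun x : Bool × ℕ => ∃ (c'' : Fin n) (y : V),
        Nat.testBit c'' x.2 ≠ Nat.testBit c' x.2 ∧ kl x.1 (cfg c') v y ∧ kl x.1 (cfg c'') v y) ?_
    rintro (⟨c'', y, hne, h1, h2⟩ | ⟨c'', y, hne, h1, h2⟩)
    · obtain ⟨i, hi, hb⟩ := hbit c'' c' hne
      exact ⟨(true, i), Finset.mem_product.mpr ⟨Finset.mem_univ _, hi⟩, c'', y, hb,
        Or.inl ⟨rfl, h1⟩, Or.inl ⟨rfl, h2⟩⟩
    · obtain ⟨i, hi, hb⟩ := hbit c'' c' hne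
      exact ⟨(false, i), Finset.mem_product.mpr ⟨Finset.mem_univ _, hi⟩, c'', y, hb,
        Or.inr ⟨rfl, h1⟩, Or.inr ⟨rfl, h2⟩⟩
  calc (∑ c', ∑ v, a c' v * ii (dup cfg c' v))
      ≤ ∑ c' : Fin n, ∑ v, a c' v * ∑ b : Bool, ∑ i ∈ range N2,
        ii (∃ (c'' : Fin n) (y : V),
        Nat.testBit c'' i ≠ Nat.testBit c' i ∧ kl b (cfg c') v y ∧ kl b (cfg c'') v y) :=
        Finset.sum_le_sum fun c' _ => Finset.sum_le_sum fun v _ =>
          mul_le_mul_of_nonneg_left (hkey c' v) (ha c' v)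
    _ = ∑ b : Bool, ∑ i ∈ range N2, Sb a b i cfg := by
        unfold Sb
        simp only [Finset.mul_sum]
        have e1 : ∀ (f : Fin n → V → Bool → ℕ → ℝ),
            (∑ c', ∑ v, ∑ b, ∑ i ∈ range N2, f c' v b i) =
            ∑ b, ∑ i ∈ range N2, ∑ c', ∑ v, f c' v b i := by
          intro f
          have e2 : ∀ c', (∑ v, ∑ b, ∑ i ∈ range N2, f c' v b i) =
              ∑ b, ∑ i ∈ range N2, ∑ v, f c' v b i := by
            intro c'
            rw [Finset.sum_comm]
            refine Finset.sum_congr rfl fun b _ => ?_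
            rw [Finset.sum_comm]
          simp only [e2]
          rw [Finset.sum_comm]
          refine Finset.sum_congr rfl fun b _ => ?_
          rw [Finset.sum_comm]
        exact e1 _

omit [Fintype V] in
lemma mix_in {n : ℕ} {C : Fin n → Cl V} {T : ℕ} {A : Finset (Fin n)} (x y : Cf C T) {c : Fin n}
    (h : c ∈ A) : mix (W := Fin n) (α := fun c => (C c).Wk T → Bool) A x y c = x c := by
  unfold mix
  rw [if_pos h]

omit [Fintype V] in
lemma mix_out {n : ℕ} {C : Fin n → Cl V} {T : ℕ} {A : Finset (Fin n)} (x y : Cf C T) {c : Fin n}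
    (h : c ∉ A) : mix (W := Fin n) (α := fun c => (C c).Wk T → Bool) A x y c = y c := by
  unfold mix
  rw [if_neg h]

/-- the bound, given the classes in `A` -/
lemma cond_bound (hP : PIMStmt) {n : ℕ} (C : Fin n → Cl V) {d : ℝ} {T : ℕ} {p z r : ℝ}
    (hp : ∀ c, Par (C c) d T p z r) (a : Fin n → V → ℝ) {wm Y X : ℝ} (m : ℕ) (b : Bool) (i : ℕ)
    (hwm : 0 < wm) (hr : 0 ≤ r) (hd : 0 < d) (hp0 : 0 ≤ p) (hp1 : p ≤ 1)
    (ha : ∀ c v, 0 ≤ a c v ∧ a c v ≤ wm) (ha2 : ∀ c, (∑ v, a c v) ≤ 100) (hY : 1 ≤ Y)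
    (hX : 7 * ((2 * r / d) * n * (300 * (Y + 1))) ≤ X)
    (A : Finset (Fin n)) (hA : ∀ c' ∈ A, ∀ c'' : Fin n, Nat.testBit c'' i ≠ Nat.testBit c' i → c'' ∉ A)
    (hA' : ∀ c', c' ∉ A → ∀ c'' : Fin n, Nat.testBit c'' i ≠ Nat.testBit c' i → c'' ∈ A)
    (base : Cf C T)
    (g1 : ∀ v y, (∃ c, a c v ≠ 0) →
      (A.filter fun c' => kl b (base c') v y).card ≤ 3 * (m + 1))
    (g2 : ∑ c' ∈ A, ∑ v, a c' v * ii (∃ y, kl b (base c') v y) ≤ Y + 100)
    (g3 : ∀ v, (∃ c, a c v ≠ 0) →
      ∑ c' ∈ A, ii (∃ y, kl b (base c') v y) ≤ Y + 1) :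
    PC C T p {η | X < Sb a b i (mix (W := Fin n) (α := fun c => (C c).Wk T → Bool) A base η)} ≤
      Real.exp (-(X / (8 * ((m : ℝ) + 1) * ((T : ℝ) + 1) * wm))) := by
  obtain ⟨h, hh⟩ : ∃ h : Fin n → V → V → ℝ, h = fun e v y =>
    (∑ c' ∈ A, a c' v * ii (kl b (base c') v y)) +
      a e v * ii (∃ c'' ∈ A, kl b (base c'') v y) := ⟨_, rfl⟩
  obtain ⟨Q, hQd⟩ : ∃ Q : ∀ e, (C e).Wk T → ℝ, Q = fun e w =>
    ∑ v, ∑ y, h e v y * ii (lw b w v y) := ⟨_, rfl⟩
  have hh0 : ∀ e v y, 0 ≤ h e v y := by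
    intro e v y
    rw [hh]
    exact add_nonneg (Finset.sum_nonneg fun c' _ => mul_nonneg (ha c' v).1 (ii_nonneg _))
      (mul_nonneg (ha e v).1 (ii_nonneg _))
  have hh1 : ∀ e v y, h e v y ≤ 4 * ((m : ℝ) + 1) * wm := by
    intro e v y
    by_cases hv : ∃ c, a c v ≠ 0
    · have e1 : (∑ c' ∈ A, a c' v * ii (kl b (base c') v y)) ≤ 3 * ((m : ℝ) + 1) * wm := by
        calc (∑ c' ∈ A, a c' v * ii (kl b (base c') v y))
            ≤ ∑ c' ∈ A, wm * ii (kl b (base c') v y) :=
              Finset.sum_le_sum fun c' _ => mul_le_mul_of_nonneg_right (ha c' v).2 (ii_nonneg _)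
          _ = wm * ((A.filter fun c' => kl b (base c') v y).card : ℝ) := by
              rw [← Finset.mul_sum, sum_ii]
          _ ≤ wm * (3 * ((m : ℝ) + 1)) := by
              apply mul_le_mul_of_nonneg_left _ hwm.le
              exact_mod_cast g1 v y hv
          _ = _ := by ring
      have e2 : a e v * ii (∃ c'' ∈ A, kl b (base c'') v y) ≤ wm * 1 :=
        mul_le_mul (ha e v).2 (ii_le_one _) (ii_nonneg _) hwm.le
      have e3 : (0 : ℝ) ≤ m * wm := by positivity
      rw [hh]
      show _ + _ ≤ _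
      nlinarith
    · push Not at hv
      rw [hh]
      show (∑ c' ∈ A, a c' v * ii (kl b (base c') v y)) +
        a e v * ii (∃ c'' ∈ A, kl b (base c'') v y) ≤ _
      rw [hv e, zero_mul, add_zero, Finset.sum_eq_zero (fun c' _ => by rw [hv c', zero_mul])]
      positivity
  have hwq : (0 : ℝ) < 8 * ((m : ℝ) + 1) * ((T : ℝ) + 1) * wm := by positivity
  have hQ : ∀ e w, 0 ≤ Q e w ∧ Q e w ≤ 8 * ((m : ℝ) + 1) * ((T : ℝ) + 1) * wm := by
    intro e w
    rw [hQd]
    refine ⟨Finset.sum_nonneg fun v _ => Finset.sum_nonneg fun y _ =>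
      mul_nonneg (hh0 e v y) (ii_nonneg _), ?_⟩
    calc (∑ v, ∑ y, h e v y * ii (lw b w v y))
        ≤ ∑ v : V, ∑ y : V, (4 * ((m : ℝ) + 1) * wm) * ii (lw b w v y) :=
          Finset.sum_le_sum fun v _ => Finset.sum_le_sum fun y _ =>
            mul_le_mul_of_nonneg_right (hh1 e v y) (ii_nonneg _)
      _ = (4 * ((m : ℝ) + 1) * wm) * ∑ v : V, ∑ y : V, ii (lw b w v y) := by
          rw [Finset.mul_sum]
          exact Finset.sum_congr rfl fun v _ => by rw [Finset.mul_sum]
      _ ≤ (4 * ((m : ℝ) + 1) * wm) * T :=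
          mul_le_mul_of_nonneg_left (lw_card b w) (by positivity)
      _ ≤ 8 * ((m : ℝ) + 1) * ((T : ℝ) + 1) * wm := by
          have e1 : (0 : ℝ) ≤ ((m : ℝ) + 1) * wm := by positivity
          have e2 : (0 : ℝ) ≤ ((m : ℝ) + 1) * wm * T := by positivity
          nlinarith
  -- the sum of the weights
  have hsum : ∀ e, (∑ v, ∑ y, h e v y) ≤ 300 * (Y + 1) := by
    intro e
    have huniq : ∀ (c' : Fin n) (v : V), (∑ y, ii (kl b (base c') v y)) ≤
        ii (∃ y, kl b (base c') v y) := by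
      intro c' v
      by_cases hex : ∃ y, kl b (base c') v y
      · obtain ⟨y0, hy0⟩ := hex
        rw [ii_of ⟨y0, hy0⟩, Finset.sum_eq_single y0]
        · exact ii_le_one _
        · intro y _ hy
          exact ii_not fun hy1 => hy (kl_unique (hP V (C c') d T (hp c').ok) hy1 hy0)
        · intro h5
          exact absurd (Finset.mem_univ y0) h5
      · rw [ii_not hex]
        refine le_of_eq (Finset.sum_eq_zero fun y _ => ii_not fun hy1 => hex ⟨y, hy1⟩)
    have e1 : (∑ v, ∑ y, ∑ c' ∈ A, a c' v * ii (kl b (base c') v y)) ≤ Y + 100 := by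
      refine le_trans ?_ g2
      have e2 : (∑ v, ∑ y, ∑ c' ∈ A, a c' v * ii (kl b (base c') v y)) =
          ∑ c' ∈ A, ∑ v, a c' v * ∑ y, ii (kl b (base c') v y) := by
        have e3 : ∀ v, (∑ y, ∑ c' ∈ A, a c' v * ii (kl b (base c') v y)) =
            ∑ c' ∈ A, a c' v * ∑ y, ii (kl b (base c') v y) := by
          intro v
          rw [Finset.sum_comm]
          exact Finset.sum_congr rfl fun c' _ => by rw [Finset.mul_sum]
        simp only [e3]
        rw [Finset.sum_comm]
      rw [e2]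
      exact Finset.sum_le_sum fun c' _ => Finset.sum_le_sum fun v _ =>
        mul_le_mul_of_nonneg_left (huniq c' v) (ha c' v).1
    have e4 : (∑ v, ∑ y, a e v * ii (∃ c'' ∈ A, kl b (base c'') v y)) ≤ 100 * (Y + 1) := by
      have e5 : ∀ v, (∑ y, a e v * ii (∃ c'' ∈ A, kl b (base c'') v y)) ≤ a e v * (Y + 1) := by
        intro v
        by_cases hv : a e v = 0
        · rw [hv, zero_mul]
          exact le_of_eq (Finset.sum_eq_zero fun y _ => by rw [zero_mul])
        · rw [← Finset.mul_sum]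
          apply mul_le_mul_of_nonneg_left _ (ha e v).1
          calc (∑ y, ii (∃ c'' ∈ A, kl b (base c'') v y))
              ≤ ∑ y, ∑ c'' ∈ A, ii (kl b (base c'') v y) :=
                Finset.sum_le_sum fun y _ => ii_le_sum A _ _ fun h => h
            _ = ∑ c'' ∈ A, ∑ y, ii (kl b (base c'') v y) := Finset.sum_comm
            _ ≤ ∑ c'' ∈ A, ii (∃ y, kl b (base c'') v y) :=
                Finset.sum_le_sum fun c'' _ => huniq c'' v
            _ ≤ Y + 1 := g3 v ⟨e, hv⟩
      calc (∑ v, ∑ y, a e v * ii (∃ c'' ∈ A, kl b (base c'') v y))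
          ≤ ∑ v, a e v * (Y + 1) := Finset.sum_le_sum fun v _ => e5 v
        _ = (∑ v, a e v) * (Y + 1) := by rw [Finset.sum_mul]
        _ ≤ 100 * (Y + 1) := mul_le_mul_of_nonneg_right (ha2 e) (by linarith)
    have e6 : (∑ v, ∑ y, h e v y) = (∑ v, ∑ y, ∑ c' ∈ A, a c' v * ii (kl b (base c') v y)) +
        ∑ v, ∑ y, a e v * ii (∃ c'' ∈ A, kl b (base c'') v y) := by
      rw [hh]
      rw [← Finset.sum_add_distrib]
      refine Finset.sum_congr rfl fun v _ => ?_
      rw [← Finset.sum_add_distrib]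
    rw [e6]
    linarith
  have hmean : 7 * (∑ e ∈ univ \ A, ∑ w, p * Q e w) ≤ X := by
    refine le_trans (mul_le_mul_of_nonneg_left ?_ (by norm_num)) hX
    have e1 : ∀ e, (∑ w, p * Q e w) ≤ (2 * r / d) * (300 * (Y + 1)) := by
      intro e
      have e2 : (∑ w, p * Q e w) = ∑ v, ∑ y, h e v y * (p * ∑ w : (C e).Wk T, ii (lw b w v y)) := by
        rw [hQd]
        have e3 : ∀ w : (C e).Wk T, p * (∑ v, ∑ y, h e v y * ii (lw b w v y)) =
            ∑ v, ∑ y, h e v y * (p * ii (lw b w v y)) := by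
          intro w
          rw [Finset.mul_sum]
          refine Finset.sum_congr rfl fun v _ => ?_
          rw [Finset.mul_sum]
          refine Finset.sum_congr rfl fun y _ => ?_
          ring
        simp only [e3]
        rw [Finset.sum_comm]
        refine Finset.sum_congr rfl fun v _ => ?_
        rw [Finset.sum_comm]
        refine Finset.sum_congr rfl fun y _ => ?_
        rw [← Finset.mul_sum, ← Finset.mul_sum]
      rw [e2]
      calc (∑ v, ∑ y, h e v y * (p * ∑ w : (C e).Wk T, ii (lw b w v y)))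
          ≤ ∑ v, ∑ y, h e v y * (2 * r / d) :=
            Finset.sum_le_sum fun v _ => Finset.sum_le_sum fun y _ =>
              mul_le_mul_of_nonneg_left (lw_count (hp e) b v y) (hh0 e v y)
        _ = (∑ v, ∑ y, h e v y) * (2 * r / d) := by
            rw [Finset.sum_mul]
            exact Finset.sum_congr rfl fun v _ => by rw [Finset.sum_mul]
        _ ≤ (300 * (Y + 1)) * (2 * r / d) :=
            mul_le_mul_of_nonneg_right (hsum e) (by positivity)
        _ = _ := by ring
    calc (∑ e ∈ univ \ A, ∑ w, p * Q e w)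
        ≤ ∑ e ∈ univ \ A, (2 * r / d) * (300 * (Y + 1)) := Finset.sum_le_sum fun e _ => e1 e
      _ = ((univ \ A).card : ℝ) * ((2 * r / d) * (300 * (Y + 1))) := by
          rw [Finset.sum_const, nsmul_eq_mul]
      _ ≤ n * ((2 * r / d) * (300 * (Y + 1))) := by
          apply mul_le_mul_of_nonneg_right _ (by positivity)
          have : (univ \ A).card ≤ n := by
            refine (Finset.card_le_univ _).trans (le_of_eq ?_)
            exact Fintype.card_fin n
          exact_mod_cast this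
      _ = _ := by ring
  refine le_trans (Pr_mono ?_ ?_) (walk_chern C T hp0 hp1 A Q hwq hQ hmean)
  · exact cwt_prob fun c => qq_prob hp0 hp1
  intro η hη
  have hη' : X < Sb a b i (mix (W := Fin n) (α := fun c => (C c).Wk T → Bool) A base η) := hη
  show X ≤ ∑ e ∈ univ \ A, ∑ w, Q e w * ii (η e w = true)
  refine le_trans hη'.le ?_
  -- links of the classes outside `A`
  have step2 : ∀ e, (∑ v, ∑ y, h e v y * ii (kl b (η e) v y)) ≤
      ∑ w, Q e w * ii (η e w = true) := by
    intro e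
    have e1 : (∑ w, Q e w * ii (η e w = true)) =
        ∑ v, ∑ y, h e v y * ∑ w : (C e).Wk T, ii (η e w = true ∧ lw b w v y) := by
      rw [hQd]
      have e3 : ∀ w : (C e).Wk T, (∑ v, ∑ y, h e v y * ii (lw b w v y)) * ii (η e w = true) =
          ∑ v, ∑ y, h e v y * ii (η e w = true ∧ lw b w v y) := by
        intro w
        rw [Finset.sum_mul]
        refine Finset.sum_congr rfl fun v _ => ?_
        rw [Finset.sum_mul]
        refine Finset.sum_congr rfl fun y _ => ?_
        rw [ii_and]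
        ring
      simp only [e3]
      rw [Finset.sum_comm]
      refine Finset.sum_congr rfl fun v _ => ?_
      rw [Finset.sum_comm]
      refine Finset.sum_congr rfl fun y _ => ?_
      rw [← Finset.mul_sum]
    rw [e1]
    refine Finset.sum_le_sum fun v _ => Finset.sum_le_sum fun y _ =>
      mul_le_mul_of_nonneg_left ?_ (hh0 e v y)
    refine ii_le_sum _ _ _ fun hk => ?_
    obtain ⟨w, hw1, hw2⟩ := kl_walk hk
    exact ⟨w, Finset.mem_univ _, hw1, hw2⟩
  refine le_trans ?_ (Finset.sum_le_sum fun e _ => step2 e)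
  -- split the sum
  unfold Sb
  rw [← Finset.sum_sdiff (Finset.subset_univ A)]
  have sA : (∑ c' ∈ A, ∑ v, a c' v * ii (∃ (c'' : Fin n) (y : V),
      Nat.testBit c'' i ≠ Nat.testBit c' i ∧
        kl b (mix (W := Fin n) (α := fun c => (C c).Wk T → Bool) A base η c') v y ∧
        kl b (mix (W := Fin n) (α := fun c => (C c).Wk T → Bool) A base η c'') v y)) ≤
      ∑ e ∈ univ \ A, ∑ v, ∑ y, (∑ c' ∈ A, a c' v * ii (kl b (base c') v y)) *
        ii (kl b (η e) v y) := by
    have f1 : ∀ c' ∈ A, ∀ v, ii (∃ (c'' : Fin n) (y : V),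
        Nat.testBit c'' i ≠ Nat.testBit c' i ∧
        kl b (mix (W := Fin n) (α := fun c => (C c).Wk T → Bool) A base η c') v y ∧
        kl b (mix (W := Fin n) (α := fun c => (C c).Wk T → Bool) A base η c'') v y) ≤
        ∑ e ∈ univ \ A, ∑ y, ii (kl b (base c') v y) * ii (kl b (η e) v y) := by
      intro c' hc' v
      rw [← Finset.sum_product']
      have f2 : ∀ x : Fin n × V, ii (kl b (base c') v x.2) * ii (kl b (η x.1) v x.2) =
          ii (kl b (base c') v x.2 ∧ kl b (η x.1) v x.2) := fun x => (ii_and _ _).symm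
      simp only [f2]
      refine ii_le_sum _ _ _ ?_
      rintro ⟨c'', y, hb, k1, k2⟩
      have hc'' := hA c' hc' c'' hb
      rw [mix_in base η hc'] at k1
      rw [mix_out base η hc''] at k2
      exact ⟨(c'', y), Finset.mem_product.mpr ⟨Finset.mem_sdiff.mpr ⟨Finset.mem_univ _, hc''⟩,
        Finset.mem_univ _⟩, k1, k2⟩
    calc _ ≤ ∑ c' ∈ A, ∑ v, a c' v * ∑ e ∈ univ \ A, ∑ y,
          ii (kl b (base c') v y) * ii (kl b (η e) v y) :=
          Finset.sum_le_sum fun c' hc' => Finset.sum_le_sum fun v _ =>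
            mul_le_mul_of_nonneg_left (f1 c' hc' v) (ha c' v).1
      _ = ∑ e ∈ univ \ A, ∑ v, ∑ y, (∑ c' ∈ A, a c' v * ii (kl b (base c') v y)) *
          ii (kl b (η e) v y) := by
          simp only [Finset.mul_sum, Finset.sum_mul]
          have g4 : ∀ f : Fin n → V → Fin n → V → ℝ,
              (∑ c' ∈ A, ∑ v, ∑ e ∈ univ \ A, ∑ y, f c' v e y) =
              ∑ e ∈ univ \ A, ∑ v, ∑ y, ∑ c' ∈ A, f c' v e y := by
            intro f
            have g5 : ∀ c', (∑ v, ∑ e ∈ univ \ A, ∑ y, f c' v e y) =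
                ∑ e ∈ univ \ A, ∑ v, ∑ y, f c' v e y := by
              intro c'
              rw [Finset.sum_comm]
            simp only [g5]
            rw [Finset.sum_comm]
            refine Finset.sum_congr rfl fun e _ => ?_
            rw [Finset.sum_comm]
            refine Finset.sum_congr rfl fun v _ => ?_
            rw [Finset.sum_comm]
          rw [g4]
          refine Finset.sum_congr rfl fun e _ => Finset.sum_congr rfl fun v _ =>
            Finset.sum_congr rfl fun y _ => Finset.sum_congr rfl fun c' _ => ?_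
          ring
  have sB : (∑ c' ∈ univ \ A, ∑ v, a c' v * ii (∃ (c'' : Fin n) (y : V),
      Nat.testBit c'' i ≠ Nat.testBit c' i ∧
        kl b (mix (W := Fin n) (α := fun c => (C c).Wk T → Bool) A base η c') v y ∧
        kl b (mix (W := Fin n) (α := fun c => (C c).Wk T → Bool) A base η c'') v y)) ≤
      ∑ e ∈ univ \ A, ∑ v, ∑ y, (a e v * ii (∃ c'' ∈ A, kl b (base c'') v y)) *
        ii (kl b (η e) v y) := by
    refine Finset.sum_le_sum fun e he => Finset.sum_le_sum fun v _ => ?_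
    have he' : e ∉ A := (Finset.mem_sdiff.mp he).2
    have f3 : ∀ y, (a e v * ii (∃ c'' ∈ A, kl b (base c'') v y)) * ii (kl b (η e) v y) =
        a e v * ii ((∃ c'' ∈ A, kl b (base c'') v y) ∧ kl b (η e) v y) := by
      intro y
      rw [ii_and]
      ring
    simp only [f3]
    rw [← Finset.mul_sum]
    refine mul_le_mul_of_nonneg_left ?_ (ha e v).1
    refine ii_le_sum _ _ _ ?_
    rintro ⟨c'', y, hb, k1, k2⟩
    have hc'' := hA' e he' c'' hb
    rw [mix_out base η he'] at k1
    rw [mix_in base η hc''] at k2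
    exact ⟨y, Finset.mem_univ _, ⟨c'', hc'', k2⟩, k1⟩
  have hfin : (∑ e ∈ univ \ A, ∑ v, ∑ y, h e v y * ii (kl b (η e) v y)) =
      (∑ e ∈ univ \ A, ∑ v, ∑ y, (a e v * ii (∃ c'' ∈ A, kl b (base c'') v y)) *
        ii (kl b (η e) v y)) +
      ∑ e ∈ univ \ A, ∑ v, ∑ y, (∑ c' ∈ A, a c' v * ii (kl b (base c') v y)) *
        ii (kl b (η e) v y) := by
    rw [hh, ← Finset.sum_add_distrib]
    refine Finset.sum_congr rfl fun e _ => ?_
    rw [← Finset.sum_add_distrib]
    refine Finset.sum_congr rfl fun v _ => ?_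
    rw [← Finset.sum_add_distrib]
    refine Finset.sum_congr rfl fun y _ => ?_
    ring
  rw [hfin]
  exact add_le_add sB sA

lemma E_kl (hk : PLKStmt) {C : Cl V} {d : ℝ} {T : ℕ} {p z r : ℝ} (hp : Par C d T p z r)
    (b : Bool) (v : V) : C.E T p (fun om => ii (∃ y, kl b om v y)) ≤ 2 * r := by
  have hq : IsProb (W := C.Wk T) (α := fun _ => Bool) (qq p) :=
    qq_prob hp.p0.le (hp.ph.trans (by norm_num))
  have h1 : C.E T p (fun om => ii (∃ y, kl b om v y)) =
      LLLA.Pr (α := fun _ : C.Wk T => Bool) (qq p) {om | ∃ y ∈ (univ : Finset V),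
        om ∈ {om : C.Wk T → Bool | kl b om v y}} := by
    unfold Cl.E
    have h2 : (fun om : C.Wk T → Bool => ii (∃ y, kl b om v y)) =
        fun om => if (∃ y, kl b om v y) then (1 : ℝ) else 0 := by
      funext om
      by_cases h : ∃ y, kl b om v y
      · rw [ii_of h, if_pos h]
      · rw [ii_not h, if_neg h]
    rw [h2, Ex_ite]
    congr 1
    ext om
    simp
  rw [h1]
  refine (Pr_exists_le hq _ _).trans ?_
  obtain ⟨-, hO, hI, -, -⟩ := hk V C d T p z r hp
  cases b with
  | true =>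
    refine le_trans (le_of_eq ?_) (hO v)
    refine Finset.sum_congr rfl fun y _ => ?_
    unfold Cl.Pr
    congr 1
    ext om
    exact kl_true om v y
  | false =>
    refine le_trans (le_of_eq ?_) (hI v)
    refine Finset.sum_congr rfl fun y _ => ?_
    unfold Cl.Pr
    congr 1
    ext om
    exact kl_false om v y

/-- `dupO` or `dupI` -/
def dupX {n : ℕ} {C : Fin n → Cl V} {T : ℕ} (b : Bool) (m : ℕ) (v : V) : Set (Cf C T) :=
  if b = true then dupO m v else dupI m v

lemma dupX_card (hdup : DUPStmt) {n : ℕ} (C : Fin n → Cl V) {d : ℝ} {T : ℕ}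
    (hok : ∀ c, (C c).Ok d) (b : Bool) (m : ℕ) (hm : 1 ≤ m) (v : V) (cfg : Cf C T)
    (h : cfg ∉ dupX b m v) :
    (univ.filter fun c : Fin n => ∃ (c' : Fin n) (y : V), c' ≠ c ∧ kl b (cfg c) v y ∧
      kl b (cfg c') v y).card ≤ 3 * m := by
  have h1 := hdup V n C d T hok cfg v m hm
  cases b with
  | true =>
    have h2 : cfg ∉ dupO m v := by
      intro h3
      apply h
      unfold dupX
      rw [if_pos rfl]
      exact h3
    simp only [kl_true]
    exact h1.1 h2
  | false =>
    have h2 : cfg ∉ dupI m v := by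
      intro h3
      apply h
      unfold dupX
      rw [if_neg (by decide)]
      exact h3
    simp only [kl_false]
    exact h1.2 h2

/-- one bit, one direction -/
lemma one_bit (hP : PIMStmt) (hk : PLKStmt) (hpre : PREStmt) (h2 : LI2Stmt) (hdup : DUPStmt)
    {n : ℕ} (C : Fin n → Cl V) {d : ℝ} {T : ℕ} {p z r : ℝ}
    (hp : ∀ c, Par (C c) d T p z r) (a : Fin n → V → ℝ) {wm Y X : ℝ} (m B1 : ℕ) (b : Bool)
    (i : ℕ) (hwm : 0 < wm) (ha : ∀ c v, 0 ≤ a c v ∧ a c v ≤ wm) (ha2 : ∀ c, (∑ v, a c v) ≤ 100)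
    (hB : (univ.filter fun v => ∃ c, a c v ≠ 0).card ≤ B1) (hm : 1 ≤ m)
    (hY : 1 ≤ Y) (hY7 : 7 * (200 * n * r) ≤ Y)
    (hX : 7 * ((2 * r / d) * n * (300 * (Y + 1))) ≤ X) (c0 : Fin n) (om0 : Cf C T) :
    PC C T p {et | X < Sb a b i (fixc c0 om0 et)} ≤
      B1 * (Real.exp 1 * (n ^ 2 * (4 * r ^ 2 / d)) / m) ^ m + Real.exp (-(Y / 100)) +
        B1 * Real.exp (-Y) + Real.exp (-(X / (8 * ((m : ℝ) + 1) * ((T : ℝ) + 1) * wm))) := by
  have hp0 : 0 ≤ p := (hp c0).p0.le
  have hp1 : p ≤ 1 := (hp c0).ph.trans (by norm_num)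
  have hz := (hp c0).z0
  have hr : 0 ≤ r := by rw [← (hp c0).zr]; positivity
  have hd : 0 < d := lt_of_lt_of_le one_pos (hp c0).ok.one_le
  have hq : IsProb (W := Fin n) (α := fun c => (C c).Wk T → Bool)
      (LLLA.cwt (K := fun c => (C c).Wk T) (β := fun _ => Bool) fun _ => qq p) :=
    cwt_prob fun c => qq_prob hp0 hp1
  obtain ⟨S, hS⟩ : ∃ S : Finset V, S = univ.filter fun v => ∃ c, a c v ≠ 0 := ⟨_, rfl⟩
  rw [← hS] at hB
  have hmS : ∀ v, (∃ c, a c v ≠ 0) → v ∈ S := by
    intro v hv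
    rw [hS]
    exact Finset.mem_filter.mpr ⟨Finset.mem_univ _, hv⟩
  obtain ⟨A, hAd⟩ : ∃ A : Finset (Fin n),
      A = univ.filter fun c' : Fin n => Nat.testBit c' i = Nat.testBit c0 i := ⟨_, rfl⟩
  have hmA : ∀ c', c' ∈ A ↔ Nat.testBit c' i = Nat.testBit c0 i := by
    intro c'
    rw [hAd]
    simp
  have hc0 : c0 ∈ A := (hmA c0).mpr rfl
  have hA : ∀ c' ∈ A, ∀ c'' : Fin n, Nat.testBit c'' i ≠ Nat.testBit c' i → c'' ∉ A := by
    intro c' hc' c'' hne hc''
    exact hne (((hmA c'').mp hc'').trans ((hmA c').mp hc').symm)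
  have hA' : ∀ c', c' ∉ A → ∀ c'' : Fin n, Nat.testBit c'' i ≠ Nat.testBit c' i → c'' ∈ A := by
    intro c' hc' c'' hne
    rw [hmA] at hc' ⊢
    cases h1 : Nat.testBit c' i <;> cases h3 : Nat.testBit c'' i <;>
      cases h4 : Nat.testBit c0 i <;> simp_all
  -- the three bad events
  obtain ⟨F2, hF2⟩ : ∃ F2 : ∀ c : Fin n, ((C c).Wk T → Bool) → ℝ, F2 = fun c om =>
    if c ∈ A then ∑ v, a c v * ii (∃ y, kl b om v y) else 0 := ⟨_, rfl⟩
  obtain ⟨F3, hF3⟩ : ∃ F3 : V → ∀ c : Fin n, ((C c).Wk T → Bool) → ℝ, F3 = fun v c om =>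
    if c ∈ A then ii (∃ y, kl b om v y) else 0 := ⟨_, rfl⟩
  obtain ⟨G1, hG1⟩ : ∃ G1 : Set (Cf C T),
    G1 = {et | ∃ v ∈ S, et ∈ {et : Cf C T | fixc c0 om0 et ∈ dupX b (m + 1) v}} := ⟨_, rfl⟩
  obtain ⟨G2, hG2⟩ : ∃ G2 : Set (Cf C T),
    G2 = {et | Y + 100 < ∑ c', F2 c' (fixc c0 om0 et c')} := ⟨_, rfl⟩
  obtain ⟨G3, hG3⟩ : ∃ G3 : Set (Cf C T),
    G3 = {et | ∃ v ∈ S, et ∈ {et : Cf C T | Y + 1 < ∑ c', F3 v c' (fixc c0 om0 et c')}} :=
      ⟨_, rfl⟩
  have hn1 : (0 : ℝ) ≤ n := Nat.cast_nonneg n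
  have hnr : (0 : ℝ) ≤ n * r := by positivity
  have p1 : PC C T p G1 ≤ B1 * (Real.exp 1 * (n ^ 2 * (4 * r ^ 2 / d)) / m) ^ m := by
    rw [hG1]
    unfold PC
    refine (Pr_exists_le hq _ _).trans ?_
    have hE : (0 : ℝ) ≤ (Real.exp 1 * (n ^ 2 * (4 * r ^ 2 / d)) / m) ^ m := by positivity
    calc _ ≤ ∑ v ∈ S, (Real.exp 1 * (n ^ 2 * (4 * r ^ 2 / d)) / m) ^ m := by
          refine Finset.sum_le_sum fun v _ => ?_
          have h4 := hpre V n C d T p z r hp v m hm c0 om0
          cases b with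
          | true =>
            refine le_trans (le_of_eq ?_) h4.1
            unfold PC
            congr 1
          | false =>
            refine le_trans (le_of_eq ?_) h4.2
            unfold PC
            congr 1
      _ = (S.card : ℝ) * (Real.exp 1 * (n ^ 2 * (4 * r ^ 2 / d)) / m) ^ m := by
          rw [Finset.sum_const, nsmul_eq_mul]
      _ ≤ _ := mul_le_mul_of_nonneg_right (by exact_mod_cast hB) hE
  have p2 : PC C T p G2 ≤ Real.exp (-(Y / 100)) := by
    rw [hG2]
    refine h2 V n C T p hp0 hp1 F2 100 Y (by norm_num) ?_ ?_ c0 om0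
    · intro c om
      rw [hF2]
      dsimp only
      split_ifs with hc
      · refine ⟨Finset.sum_nonneg fun v _ => mul_nonneg (ha c v).1 (ii_nonneg _), ?_⟩
        refine le_trans (Finset.sum_le_sum fun v _ => ?_) (ha2 c)
        calc a c v * ii (∃ y, kl b om v y) ≤ a c v * 1 :=
              mul_le_mul_of_nonneg_left (ii_le_one _) (ha c v).1
          _ = a c v := mul_one _
      · exact ⟨le_rfl, by norm_num⟩
    · have e1 : ∀ c, (C c).E T p (F2 c) ≤ 200 * r := by
        intro c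
        rw [hF2]
        dsimp only
        split_ifs with hc
        · have e2 : (C c).E T p (fun om => ∑ v, a c v * ii (∃ y, kl b om v y)) =
              ∑ v, a c v * (C c).E T p (fun om => ii (∃ y, kl b om v y)) := by
            unfold Cl.E
            rw [Ex_sum]
            exact Finset.sum_congr rfl fun v _ => Ex_const_mul _ _ _
          rw [e2]
          calc _ ≤ ∑ v, a c v * (2 * r) := Finset.sum_le_sum fun v _ =>
                mul_le_mul_of_nonneg_left (E_kl hk (hp c) b v) (ha c v).1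
            _ = (∑ v, a c v) * (2 * r) := by rw [Finset.sum_mul]
            _ ≤ 100 * (2 * r) := mul_le_mul_of_nonneg_right (ha2 c) (by positivity)
            _ = 200 * r := by ring
        · have e3 : (C c).E T p (fun _ => (0 : ℝ)) = 0 := by
            unfold Cl.E
            exact Ex_const (qq_prob hp0 hp1) 0
          rw [e3]
          positivity
      calc 7 * (∑ c, (C c).E T p (F2 c)) ≤ 7 * ∑ c : Fin n, 200 * r :=
            mul_le_mul_of_nonneg_left (Finset.sum_le_sum fun c _ => e1 c) (by norm_num)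
        _ = 7 * (200 * n * r) := by
            rw [Finset.sum_const, Finset.card_univ, Fintype.card_fin, nsmul_eq_mul]
            ring
        _ ≤ Y := hY7
  have p3 : PC C T p G3 ≤ B1 * Real.exp (-Y) := by
    rw [hG3]
    unfold PC
    refine (Pr_exists_le hq _ _).trans ?_
    calc _ ≤ ∑ v ∈ S, Real.exp (-Y) := by
          refine Finset.sum_le_sum fun v _ => ?_
          have h4 := h2 V n C T p hp0 hp1 (F3 v) 1 Y (by norm_num) ?_ ?_ c0 om0
          · rw [div_one] at h4
            exact h4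
          · intro c om
            rw [hF3]
            dsimp only
            split_ifs with hc
            · exact ⟨ii_nonneg _, ii_le_one _⟩
            · exact ⟨le_rfl, by norm_num⟩
          · have e1 : ∀ c, (C c).E T p (F3 v c) ≤ 2 * r := by
              intro c
              rw [hF3]
              dsimp only
              split_ifs with hc
              · exact E_kl hk (hp c) b v
              · have e3 : (C c).E T p (fun _ => (0 : ℝ)) = 0 := by
                  unfold Cl.E
                  exact Ex_const (qq_prob hp0 hp1) 0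
                rw [e3]
                positivity
            calc 7 * (∑ c, (C c).E T p (F3 v c)) ≤ 7 * ∑ c : Fin n, 2 * r :=
                  mul_le_mul_of_nonneg_left (Finset.sum_le_sum fun c _ => e1 c) (by norm_num)
              _ = 7 * (2 * (n * r)) := by
                  rw [Finset.sum_const, Finset.card_univ, Fintype.card_fin, nsmul_eq_mul]
                  ring
              _ ≤ 7 * (200 * n * r) := by nlinarith
              _ ≤ Y := hY7
      _ = (S.card : ℝ) * Real.exp (-Y) := by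
          rw [Finset.sum_const, nsmul_eq_mul]
      _ ≤ _ := mul_le_mul_of_nonneg_right (by exact_mod_cast hB) (Real.exp_pos _).le
  have p4 : PC C T p ({et | X < Sb a b i (fixc c0 om0 et)} \ (G1 ∪ (G2 ∪ G3))) ≤
      Real.exp (-(X / (8 * ((m : ℝ) + 1) * ((T : ℝ) + 1) * wm))) := by
    unfold PC
    refine Pr_le_of_cond hq A _ ?_
    intro ω
    by_cases hem : ∃ η, mix (W := Fin n) (α := fun c => (C c).Wk T → Bool) A ω η ∈
      ({et : Cf C T | X < Sb a b i (fixc c0 om0 et)} \ (G1 ∪ (G2 ∪ G3)))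
    · obtain ⟨η0, hη0⟩ := hem
      obtain ⟨base, hbase⟩ : ∃ base : Cf C T, base = fixc c0 om0 ω := ⟨_, rfl⟩
      have hmix : ∀ η : Cf C T, fixc c0 om0 (mix (W := Fin n) (α := fun c => (C c).Wk T → Bool)
          A ω η) = mix (W := Fin n) (α := fun c => (C c).Wk T → Bool) A base η := by
        intro η
        funext c
        by_cases hc : c = c0
        · rw [hc, mix_in base η hc0, hbase]
          unfold fixc
          rw [mix_in _ _ (Finset.mem_singleton_self c0), mix_in _ _ (Finset.mem_singleton_self c0)]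
        · have hc1 : c ∉ ({c0} : Finset (Fin n)) := fun h => hc (Finset.mem_singleton.mp h)
          by_cases hcA : c ∈ A
          · rw [mix_in base η hcA, hbase]
            unfold fixc
            rw [mix_out _ _ hc1, mix_out _ _ hc1, mix_in _ _ hcA]
          · rw [mix_out base η hcA]
            unfold fixc
            rw [mix_out _ _ hc1, mix_out _ _ hcA]
      obtain ⟨-, hn⟩ := hη0
      have hn1 : mix (W := Fin n) (α := fun c => (C c).Wk T → Bool) A ω η0 ∉ G1 :=
        fun h => hn (Or.inl h)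
      have hn2 : mix (W := Fin n) (α := fun c => (C c).Wk T → Bool) A ω η0 ∉ G2 :=
        fun h => hn (Or.inr (Or.inl h))
      have hn3 : mix (W := Fin n) (α := fun c => (C c).Wk T → Bool) A ω η0 ∉ G3 :=
        fun h => hn (Or.inr (Or.inr h))
      have g1 : ∀ v y, (∃ c, a c v ≠ 0) →
          (A.filter fun c' => kl b (base c') v y).card ≤ 3 * (m + 1) := by
        intro v y hv
        have h5 : mix (W := Fin n) (α := fun c => (C c).Wk T → Bool) A base η0 ∉
            (dupX b (m + 1) v : Set (Cf C T)) := by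
          intro h6
          apply hn1
          rw [hG1]
          refine ⟨v, hmS v hv, ?_⟩
          show fixc c0 om0 (mix (W := Fin n) (α := fun c => (C c).Wk T → Bool) A ω η0) ∈
            dupX b (m + 1) v
          rw [hmix]
          exact h6
        have h6 := dupX_card hdup C (fun c => (hp c).ok) b (m + 1) (by omega) v _ h5
        by_cases h7 : (A.filter fun c' => kl b (base c') v y).card ≤ 1
        · omega
        · refine le_trans (Finset.card_le_card ?_) h6
          intro c hc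
          obtain ⟨hcA, hcy⟩ := Finset.mem_filter.mp hc
          have h8 : 1 < (A.filter fun c' => kl b (base c') v y).card := by omega
          obtain ⟨c', hc', hne⟩ := Finset.exists_mem_ne h8 c
          obtain ⟨hcA', hcy'⟩ := Finset.mem_filter.mp hc'
          refine Finset.mem_filter.mpr ⟨Finset.mem_univ _, c', y, hne, ?_, ?_⟩
          · rw [mix_in base η0 hcA]
            exact hcy
          · rw [mix_in base η0 hcA']
            exact hcy'
      have hfA : ∀ f : Fin n → ℝ, (∑ c', if c' ∈ A then f c' else 0) = ∑ c' ∈ A, f c' := by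
        intro f
        rw [Finset.sum_ite_mem, Finset.univ_inter]
      have g2 : ∑ c' ∈ A, ∑ v, a c' v * ii (∃ y, kl b (base c') v y) ≤ Y + 100 := by
        have h5 : ¬ (Y + 100 < ∑ c', F2 c' (fixc c0 om0 (mix (W := Fin n)
            (α := fun c => (C c).Wk T → Bool) A ω η0) c')) := by
          intro h6
          apply hn2
          rw [hG2]
          exact h6
        rw [hmix] at h5
        refine le_trans (le_of_eq ?_) (not_lt.mp h5)
        rw [hF2]
        dsimp only
        rw [hfA]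
        refine Finset.sum_congr rfl fun c' hc' => ?_
        rw [mix_in base η0 hc']
      have g3 : ∀ v, (∃ c, a c v ≠ 0) →
          ∑ c' ∈ A, ii (∃ y, kl b (base c') v y) ≤ Y + 1 := by
        intro v hv
        have h5 : ¬ (Y + 1 < ∑ c', F3 v c' (fixc c0 om0 (mix (W := Fin n)
            (α := fun c => (C c).Wk T → Bool) A ω η0) c')) := by
          intro h6
          apply hn3
          rw [hG3]
          exact ⟨v, hmS v hv, h6⟩
        rw [hmix] at h5
        refine le_trans (le_of_eq ?_) (not_lt.mp h5)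
        rw [hF3]
        dsimp only
        rw [hfA]
        refine Finset.sum_congr rfl fun c' hc' => ?_
        rw [mix_in base η0 hc']
      refine le_trans (Pr_mono hq ?_) (cond_bound hP C hp a m b i hwm hr hd hp0 hp1 ha ha2 hY hX A
        hA hA' base g1 g2 g3)
      intro η hη
      have h5 : X < Sb a b i (fixc c0 om0 (mix (W := Fin n)
            (α := fun c => (C c).Wk T → Bool) A ω η)) := hη.1
      rw [hmix] at h5
      exact h5
    · have h5 : {η | mix (W := Fin n) (α := fun c => (C c).Wk T → Bool) A ω η ∈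
          ({et : Cf C T | X < Sb a b i (fixc c0 om0 et)} \ (G1 ∪ (G2 ∪ G3)))} ⊆ (∅ : Set (Cf C T)) :=
        fun η hη => hem ⟨η, hη⟩
      refine le_trans (Pr_mono hq h5) ?_
      have h6 : LLLA.Pr (W := Fin n) (α := fun c => (C c).Wk T → Bool)
          (LLLA.cwt (K := fun c => (C c).Wk T) (β := fun _ => Bool) fun _ => qq p)
            (∅ : Set (∀ c, (C c).Wk T → Bool)) = 0 := by
        unfold LLLA.Pr
        simp
      rw [h6]
      exact (Real.exp_pos _).le
  have p5 : PC C T p {et | X < Sb a b i (fixc c0 om0 et)} ≤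
      PC C T p (G1 ∪ (G2 ∪ (G3 ∪ ({et | X < Sb a b i (fixc c0 om0 et)} \ (G1 ∪ (G2 ∪ G3)))))) := by
    refine Pr_mono hq ?_
    intro et het
    by_cases h1 : et ∈ G1
    · exact Or.inl h1
    · by_cases h3 : et ∈ G2
      · exact Or.inr (Or.inl h3)
      · by_cases h4 : et ∈ G3
        · exact Or.inr (Or.inr (Or.inl h4))
        · refine Or.inr (Or.inr (Or.inr ⟨het, ?_⟩))
          rintro (h | h | h)
          · exact h1 h
          · exact h3 h
          · exact h4 h
  have q1 := Pr_union_le hq G1 (G2 ∪ (G3 ∪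
    ({et | X < Sb a b i (fixc c0 om0 et)} \ (G1 ∪ (G2 ∪ G3)))))
  have q2 := Pr_union_le hq G2 (G3 ∪
    ({et | X < Sb a b i (fixc c0 om0 et)} \ (G1 ∪ (G2 ∪ G3))))
  have q3 := Pr_union_le hq G3 ({et | X < Sb a b i (fixc c0 om0 et)} \ (G1 ∪ (G2 ∪ G3)))
  unfold PC at p1 p2 p3 p4 p5 ⊢
  linarith

/-- **LI3**: the duplicate links in the linear statistic, one class fixed -/
theorem li3 (hP : PIMStmt) (hk : PLKStmt) (hpre : PREStmt) (h2 : LI2Stmt) (hdup : DUPStmt) :
    LI3Stmt := by
  intro V _ n C d T p z r hp a wm Y X N2 m B1 hwm ha ha2 hB hN hm hX0 hY hY7 hX c0 om0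
  have hp0 : 0 ≤ p := (hp c0).p0.le
  have hp1 : p ≤ 1 := (hp c0).ph.trans (by norm_num)
  have hz := (hp c0).z0
  have hr : 0 ≤ r := by rw [← (hp c0).zr]; positivity
  have hd : 0 < d := lt_of_lt_of_le one_pos (hp c0).ok.one_le
  have hq : IsProb (W := Fin n) (α := fun c => (C c).Wk T → Bool)
      (LLLA.cwt (K := fun c => (C c).Wk T) (β := fun _ => Bool) fun _ => qq p) :=
    cwt_prob fun c => qq_prob hp0 hp1
  obtain ⟨R, hR⟩ : ∃ R : ℝ, R = B1 * (Real.exp 1 * (n ^ 2 * (4 * r ^ 2 / d)) / m) ^ m +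
      Real.exp (-(Y / 100)) + B1 * Real.exp (-Y) +
      Real.exp (-(X / (8 * ((m : ℝ) + 1) * ((T : ℝ) + 1) * wm))) := ⟨_, rfl⟩
  have hR0 : 0 ≤ R := by
    rw [hR]
    positivity
  have h5 : PC C T p {et | (4 * ((N2 : ℝ) + 1)) * X < ∑ c', ∑ v, a c' v *
        (if dup (fixc c0 om0 et) c' v then 1 else 0)} ≤
      PC C T p {et | ∃ x ∈ (univ : Finset Bool) ×ˢ range N2,
        et ∈ {et : Cf C T | X < Sb a x.1 x.2 (fixc c0 om0 et)}} := by
    refine Pr_mono hq ?_
    intro et het
    have h6 : (4 * ((N2 : ℝ) + 1)) * X < ∑ c', ∑ v, a c' v *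
        ii (dup (fixc c0 om0 et) c' v) := het
    by_contra hcon
    have h7 : ∀ b : Bool, ∀ i ∈ range N2, Sb a b i (fixc c0 om0 et) ≤ X := by
      intro b i hi
      by_contra h8
      exact hcon ⟨(b, i), Finset.mem_product.mpr ⟨Finset.mem_univ _, hi⟩, not_le.mp h8⟩
    have h8 := dup_le a (fun c v => (ha c v).1) hN (fixc c0 om0 et)
    have h9 : (∑ b : Bool, ∑ i ∈ range N2, Sb a b i (fixc c0 om0 et)) ≤ 2 * (N2 * X) := by
      calc _ ≤ ∑ b : Bool, ∑ i ∈ range N2, X :=
            Finset.sum_le_sum fun b _ => Finset.sum_le_sum fun i hi => h7 b i hi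
        _ = 2 * (N2 * X) := by
            rw [Finset.sum_const, Finset.sum_const, Finset.card_univ, Finset.card_range,
              Fintype.card_bool, nsmul_eq_mul, nsmul_eq_mul]
            push_cast
            ring
    have h10 : (0 : ℝ) ≤ N2 * X := by positivity
    nlinarith
  refine h5.trans ?_
  have h6 : PC C T p {et | ∃ x ∈ (univ : Finset Bool) ×ˢ range N2,
        et ∈ {et : Cf C T | X < Sb a x.1 x.2 (fixc c0 om0 et)}} ≤ 2 * (N2 * R) := by
    unfold PC
    refine (Pr_exists_le hq _ _).trans ?_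
    calc _ ≤ ∑ x ∈ (univ : Finset Bool) ×ˢ range N2, R := by
          refine Finset.sum_le_sum fun x _ => ?_
          rw [hR]
          exact one_bit hP hk hpre h2 hdup C hp a m B1 x.1 x.2 hwm ha ha2 hB hm hY hY7 hX c0 om0
      _ = 2 * (N2 * R) := by
          rw [Finset.sum_const, Finset.card_product, Finset.card_univ, Finset.card_range,
            Fintype.card_bool, nsmul_eq_mul]
          push_cast
          ring
  refine h6.trans ?_
  have e0 : (0 : ℝ) ≤ B1 * (Real.exp 1 * (n ^ 2 * (4 * r ^ 2 / d)) / m) ^ m := by positivity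
  have e1 := (Real.exp_pos (-(Y / 100))).le
  have e2 : (0 : ℝ) ≤ B1 * Real.exp (-Y) := by positivity
  have e3 := (Real.exp_pos (-(X / (8 * ((m : ℝ) + 1) * ((T : ℝ) + 1) * wm)))).le
  have e4 : R ≤ B1 * (2 * (Real.exp 1 * (n ^ 2 * (4 * r ^ 2 / d)) / m) ^ m) +
        2 * Real.exp (-(Y / 100)) + 2 * B1 * Real.exp (-Y) +
        2 * Real.exp (-(X / (8 * ((m : ℝ) + 1) * ((T : ℝ) + 1) * wm))) := by
    rw [hR]
    linarith
  have hN0 : (0 : ℝ) ≤ N2 := Nat.cast_nonneg _
  calc 2 * (N2 * R) ≤ 4 * ((N2 : ℝ) + 1) * R := by nlinarith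
    _ ≤ _ := mul_le_mul_of_nonneg_left e4 (by positivity)

end

end Pool.Agent.C4K.H48
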