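import Pool.Agent.C4K.StCnt
import Pool.Agent.Helper48_C4.Np

/-!
# WCN: numbers of paths
-/

set_option autoImplicit false

namespace Pool.Agent.C4K.H48

open Finset Helper48NP
open scoped Classical

noncomputable section

variable {V : Type} [Fintype V]

lemma np_eq (C : Cl V) : ∀ (g : ℕ) (a b : V), (C.np g a b : ℝ) = pn C.gam g a b
  | 0, a, b => by
    show (((if a = b then 1 else 0 : ℕ) : ℕ) : ℝ) = if a = b then 1 else 0
    split_ifs <;> simp
  | g + 1, a, b => by
    show ((∑ x ∈ univ.filter (fun x => C.gam a x), C.np g x b : ℕ) : ℝ) =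
      ∑ x, (if C.gam a x then (1 : ℝ) else 0) * pn C.gam g x b
    rw [Nat.cast_sum, Finset.sum_filter]
    refine Finset.sum_congr rfl fun x _ => ?_
    by_cases h : C.gam a x
    · rw [if_pos h, if_pos h, one_mul, np_eq C g x b]
    · rw [if_neg h, if_neg h, zero_mul]

lemma card_ite (P : V → Prop) :
    (∑ x, if P x then (1 : ℝ) else 0) = ((univ.filter P).card : ℝ) := by
  rw [Finset.card_filter]
  push_cast
  exact Finset.sum_congr rfl fun x _ => by split_ifs <;> rfl

lemma degOk {C : Cl V} {d : ℝ} (h : C.Ok d) : DegOk C.gam d := by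
  refine ⟨fun a => ?_, fun b => ?_, ?_⟩
  · rw [card_ite]; exact h.out a
  · rw [card_ite]; exact h.inn b
  · rintro a a' hne b b' ⟨-, -, y, hy, hP⟩ ⟨-, -, y1, hy1, hP1⟩ ⟨-, -, y', hy', hP'⟩
      ⟨-, -, y1', hy1', hP1'⟩
    rw [hy] at hy1
    rw [hy'] at hy1'
    obtain rfl : y = y1 := Option.some.inj hy1
    obtain rfl : y' = y1' := Option.some.inj hy1'
    have : y = y' := h.c4.c4 a a' y y' hne (h.PN _ _ hP) (h.PN _ _ hP1) (h.PN _ _ hP') (h.PN _ _ hP1')
    subst this
    exact h.inj b b' y hy hy'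

theorem wcn : WCNStmt := by
  intro V _ C d h
  have hD := degOk h
  refine ⟨?_, ?_, ?_, ?_, ?_, ?_, ?_, ?_⟩
  · intro g a
    simp only [np_eq]
    exact pn_row hD g a
  · intro g b
    simp only [np_eq]
    exact pn_col hD g b
  · intro g a b hg
    obtain ⟨g, rfl⟩ := Nat.exists_eq_add_of_le' hg
    rw [np_eq, Nat.add_sub_cancel]
    exact pn_sup hD g a b
  · intro a
    have h1 : (C.np 1 a a : ℝ) = 0 := by
      rw [np_eq, pn_one, if_neg]
      rintro ⟨-, -, y, hy, hP⟩
      exact h.fP _ _ hy hP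
    exact_mod_cast h1
  · intro a
    simp only [np_eq]
    exact pn_two_row hD a
  · intro b
    simp only [np_eq]
    exact pn_two_col hD b
  · intro g a b hg
    obtain ⟨g, rfl⟩ := Nat.exists_eq_add_of_le' hg
    rw [np_eq, show g + 4 - 2 = g + 2 from rfl]
    exact pn_four hD g a b
  · intro g g' a b
    have h1 : (C.np (g + g') a b : ℝ) = ((∑ u, C.np g a u * C.np g' u b : ℕ) : ℝ) := by
      push_cast
      simp only [np_eq]
      exact pn_add _ g g' a b
    exact_mod_cast h1

end

end Pool.Agent.C4K.H48
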